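import Pool.Agent.MP_c07293_an.H82.Defs

/-! A bound for the discriminant of a diagonal orbit. -/

namespace Pool.Agent.MP_c07293_an.H78

/-- `O` is the diagonal orbit of the class of some `g` such that the order of the diagonal
matrices mapping the lattice `g F[u]^n` into itself contains `n` elements whose trace form
determinant is nonzero of degree at most `T` in `u`. -/
def DiscLe {F : Type} [Field F] {n : ℕ} (O : Set (GL (Fin n) (LaurentSeries F) ⧸ H82.Gam F n))
    (T : ℕ) : Prop :=
  ∃ g : GL (Fin n) (LaurentSeries F), O = H82.orb (g : _ ⧸ H82.Gam F n) ∧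
    ∃ α : Fin n → Fin n → LaurentSeries F,
      (∀ i, ∃ N : Matrix (Fin n) (Fin n) (Polynomial F),
        Matrix.diagonal (α i) * (g : Matrix (Fin n) (Fin n) (LaurentSeries F)) =
          (g : Matrix (Fin n) (Fin n) (LaurentSeries F)) * N.map (H82.emb F)) ∧
      (Matrix.of fun i j => ∑ l, α i l * α j l).det ≠ 0 ∧
      -(T : ℤ) ≤ HahnSeries.order (Matrix.of fun i j => ∑ l, α i l * α j l).det

end Pool.Agent.MP_c07293_an.H78
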