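import Pool.Agent.MP_c07293_an.H78.Main
import Pool.Agent.MP_c07293_an.H78.Defs

/-! Counting the orbits. -/

set_option autoImplicit false

namespace Pool.Agent.MP_c07293_an.H78

open Polynomial WithZero Matrix H82 Filter

variable {F : Type} [Field F]

theorem vv_lt {e : ℕ} (r : degreeLT F e) : vv (emb F r.1) ≤ exp (e : ℤ) := by
  by_cases h : r.1 = 0
  · simp [h]
  obtain ⟨j, hj, e1, -⟩ := (good_ev (vv_uu (F := F) 1) one_ne_zero).spec h
  rw [Valuation.comap_apply] at e1
  have := (le_degree_of_mem_supp _ hj).trans_lt (mem_degreeLT.1 r.2)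
  rw [emb_eq, e1, exp_le_exp, one_mul]
  exact_mod_cast this.le

theorem count [Finite F] (n : ℕ) (hn : 2 ≤ n) :
    ∃ Ω : Set (GL (Fin n) (LaurentSeries F) ⧸ Gam F n), IsCompact Ω ∧ ∃ k : ℕ, 0 < k ∧
      ∀ᶠ T : ℕ in atTop, ((Nat.card F ^ (T / k) : ℕ) : ℕ∞) ≤
        {O | IsCompact O ∧ O ⊆ Ω ∧ DiscLe O T}.encard := by
  classical
  have : NeZero n := ⟨by omega⟩
  obtain ⟨D, d1, d2, d3⟩ := exists_ring (F := F) n
  obtain ⟨G, x, lam, N, A, p, c, hG, hl0, hl, hN, hx, hxd, p0, hf⟩ := glue hn D d1 d2 d3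
  obtain ⟨P, hP⟩ : ∃ P : F[X] → Matrix (Fin n) (Fin n) F[X],
    ∀ f, P f = (expand F n f * p) • 1 + A := ⟨_, fun _ => rfl⟩
  simp only [← hP] at hf
  have he : ∀ m, emb F (P m).det ≠ 0 := fun m => (map_ne_zero_iff _ emb_inj).2 (hf m).1
  let g : F[X] → GL (Fin n) (LaurentSeries F) := fun m =>
    GeneralLinearGroup.mkOfDetNeZero (G * (P m).map (emb F)) (by
      rw [det_mul, ← RingHom.mapMatrix_apply, ← RingHom.map_det]; exact mul_ne_zero hG (he m))
  let l : F[X] → GL (Fin n) (LaurentSeries F) := fun m =>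
    GeneralLinearGroup.mkOfDetNeZero (diagonal fun i => emb F (P m).det * lam i) (by
      rw [det_diagonal]; exact Finset.prod_ne_zero_iff.2 fun i _ => mul_ne_zero (he m) (hl0 i))
  have gv : ∀ m, (g m).val = G * (P m).map (emb F) := fun _ => rfl
  have lv : ∀ m, (l m).val = emb F (P m).det • diagonal lam := fun m => by
    rw [← diagonal_smul]; rfl
  have ld : ∀ m, (l m).val.IsDiag := fun m => isDiag_diagonal _
  have li : ∀ m, Function.Injective fun i => emb F (P m).det * lam i :=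
    fun m i j h => hl (mul_left_cancel₀ (he m) h)
  have sm : ∀ (p : F[X]) (M : Matrix (Fin n) (Fin n) F[X]),
      (p • M).map (emb F) = emb F p • M.map (emb F) := sm_emb
  have hp : ∀ m, Pres (l m) (g m) := fun m => ⟨adjugate (P m) * N * P m, by
    rw [gv, lv, smul_mul_assoc, ← Matrix.mul_assoc, hN, Matrix.mul_assoc, Matrix.mul_assoc G,
      ← Matrix.map_mul, ← Matrix.map_mul, ← Matrix.mul_assoc, ← Matrix.mul_assoc, mul_adjugate,
      smul_mul_assoc, smul_mul_assoc, one_mul, ← Matrix.mul_smul, sm]⟩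
  have hs : ∀ m, orb (g m : _ ⧸ Gam F n) ⊆ QuotientGroup.mk '' CC F n (n * (n + n * c)) := by
    rintro m _ ⟨a, ha, rfl⟩
    refine into_CC (by omega) c (a * g m) fun v hv => ?_
    rw [Units.val_mul, ← ha.diagonal_diag, det_mul, det_diagonal, ← mulVec_mulVec, map_mul,
      map_prod, gv]
    simp only [mulVec_diagonal, map_mul, Finset.prod_mul_distrib]
    rw [mul_assoc]
    exact mul_le_mul' le_rfl ((hf m).2 v hv)
  have hc : ∀ m, IsCompact (orb (g m : _ ⧸ Gam F n)) := fun m =>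
    orb_compact (ld m) (fun i j hij h => hij (li m (by
      rwa [lv, Matrix.smul_apply, Matrix.smul_apply, diagonal_apply_eq, diagonal_apply_eq] at h)))
      (hp m) (hs m)
  have hGu : IsUnit G := (isUnit_iff_isUnit_det _).2 hG.isUnit
  have hW : N * A - A * N ≠ 0 := fun h6 => by
    have h7 : diagonal lam * x = x * diagonal lam := by
      rw [← hGu.mul_left_inj, Matrix.mul_assoc, hx, ← Matrix.mul_assoc, hN, Matrix.mul_assoc,
        Matrix.mul_assoc, hN, ← Matrix.mul_assoc x, hx, Matrix.mul_assoc, ← Matrix.map_mul,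
        ← Matrix.map_mul, sub_eq_zero.1 h6]
    refine hxd fun i j hij => ?_
    have := congrFun (congrFun h7 i) j
    rw [diagonal_mul, mul_diagonal, mul_comm, ← sub_eq_zero, ← mul_sub] at this
    exact (mul_eq_zero.mp this).resolve_right (sub_ne_zero.mpr fun h => hij (hl h))
  have hΔ : ∀ m m₀, orb (g m : _ ⧸ Gam F n) = orb (g m₀ : _ ⧸ Gam F n) →
      ∃ Δ, P m * Δ = (P m₀).det • (N * A - A * N) := fun m m₀ h3 => by
    obtain ⟨N', hN'⟩ := (hp m₀).of_orb (ld m₀) (h3 ▸ ⟨1, isDiag_one, (one_smul _ _).symm⟩ :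
      (g m : _ ⧸ Gam F n) ∈ orb (g m₀ : _ ⧸ Gam F n))
    rw [gv, lv, smul_mul_assoc, ← Matrix.mul_assoc, hN, Matrix.mul_assoc, Matrix.mul_assoc,
      ← Matrix.mul_smul, hGu.mul_right_inj, ← smul_mul_assoc, ← sm, ← Matrix.map_mul,
      ← Matrix.map_mul] at hN'
    have h4 : (P m₀).det • N * P m = P m * N' := Matrix.map_injective emb_inj hN'
    refine ⟨N' - (P m₀).det • N, ?_⟩
    rw [mul_sub, ← h4, hP m]
    simp only [mul_add, add_mul, mul_smul_comm, smul_mul_assoc, mul_one, one_mul]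
    module
  obtain ⟨a, ha⟩ := mat_bound (A.map (emb F))
  obtain ⟨b, hb⟩ := mat_bound ((N * A - A * N).map (emb F))
  obtain ⟨lb, hlb⟩ := mat_bound (diagonal lam)
  obtain ⟨dp, hdp⟩ : ∃ dp : ℕ, vv (emb F p) = exp (dp : ℤ) := by
    have h1 := one_le_emb p0
    obtain ⟨d, hd⟩ := exists_exp (lt_of_lt_of_le zero_lt_one h1).ne'
    rw [hd, ← exp_zero, exp_le_exp] at h1
    exact ⟨d.toNat, by rw [hd, Int.toNat_of_nonneg h1]⟩
  obtain ⟨u, v, huv⟩ : ∃ u v : ℕ, ∀ e : ℕ, n * (2 * n * (n * (n * ((n + 1) ^ 2 *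
      (e + (a + b + dp + 1))) + dp) + lb)) = u * e + v :=
    ⟨n * (2 * n * (n * (n * (n + 1) ^ 2))), n * (2 * n * (n * (n * ((n + 1) ^ 2 *
      (a + b + dp + 1)) + dp) + lb)), fun e => by ring⟩
  refine ⟨_, (compact_CC (n * (n + n * c))).image QuotientGroup.continuous_mk, (u + v + 1) * 2,
    by omega, (eventually_ge_atTop (2 * n * (u + v + 1))).mono fun T hT => ?_⟩
  have t1 : 2 * n ≤ T / (u + v + 1) := (Nat.le_div_iff_mul_le (by omega)).2 hT
  have t2 := Nat.mul_div_le T (u + v + 1)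
  rw [← Nat.div_div_eq_div_mul]
  generalize T / (u + v + 1) = e at t1 t2
  obtain ⟨m, hm⟩ : ∃ m, m = (n + 1) ^ 2 * (e + (a + b + dp + 1)) := ⟨_, rfl⟩
  have t3 : n * (2 * n * (n * (n * m + dp) + lb)) ≤ T := by rw [hm, huv]; nlinarith
  have t4 : e + a < m := by rw [hm]; nlinarith [Nat.zero_le (n ^ 2 * (e + (a + b + dp + 1)))]
  have t5 : b + (n + 1) ^ 2 * (n * e + dp) < n * m + dp := by
    have := Nat.mul_le_mul_right ((n + 1) ^ 2 * (b + dp + 1)) (show 1 ≤ n by omega)
    rw [hm]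
    nlinarith [Nat.zero_le (n * (n + 1) ^ 2 * a), Nat.zero_le (n ^ 2 * b), Nat.zero_le (n * b)]
  have t6 : (a : ℤ) < (n * m + dp : ℕ) := by exact_mod_cast (by nlinarith : a < n * m + dp)
  have v1 : ∀ r : degreeLT F e,
      vv (emb F (expand F n (X ^ m + r.1) * p)) = exp ((n * m + dp : ℕ) : ℤ) := fun r => by
    have : vv (emb F (X ^ m)) = exp (m : ℤ) := by rw [map_pow, emb_eq, ev_X, uu_pow, vv_uu]
    rw [map_mul, map_mul, ← ps_emb, vv_ps, map_add, Valuation.map_add_eq_of_lt_left _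
      ((vv_lt r).trans_lt (by rw [this, exp_lt_exp]; omega)), this, hdp, ← WithZero.exp_nsmul,
      ← WithZero.exp_add]
    simp
  have v2 : ∀ r : degreeLT F e,
      vv (emb F (P (X ^ m + r.1)).det) ≤ exp ((n * (n * m + dp) : ℕ) : ℤ) := fun r => by
    rw [RingHom.map_det]
    refine (det_le _ (fun _ => ((n * m + dp : ℕ) : ℤ)) fun i j => ?_).trans (by simp)
    rw [hP, map_add, sm_emb, map_one, Matrix.add_apply, Matrix.smul_apply, smul_eq_mul]
    refine Valuation.map_add_le _ ?_ ((ha i j).trans (exp_le_exp.2 t6.le))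
    rw [map_mul, v1, one_apply]
    split_ifs <;> simp
  have : Finite (degreeLT F e) := Finite.of_equiv _ (degreeLTEquiv F e).toEquiv.symm
  let _ := Fintype.ofFinite (degreeLT F e)
  have k1 := Finset.card_le_mul_card_image
    (f := fun r : degreeLT F e => orb (g (X ^ m + r.1) : _ ⧸ Gam F n)) Finset.univ n fun O hO => by
      obtain ⟨r₀, -, rfl⟩ := Finset.mem_image.1 hO
      by_contra h
      obtain ⟨S, h1, h2⟩ := Finset.exists_subset_card_eq (not_le.1 h)
      have k := chain ha t6 (ε := (n * e + dp : ℕ)) (Nat.cast_nonneg _)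
        (S.image fun r => expand F n (X ^ m + r.1) * p) (by simp only [Finset.forall_mem_image, v1]; simp)
        (by
          simp only [Finset.forall_mem_image]
          intro r _ r' _
          rw [← sub_mul, ← map_sub, add_sub_add_left_eq_sub, map_mul, map_mul, ← ps_emb, vv_ps, hdp,
            Nat.cast_add, WithZero.exp_add, Nat.cast_mul, ← nsmul_eq_mul, WithZero.exp_nsmul]
          exact mul_le_mul' (pow_le_pow_left' (vv_lt (r - r')) n) le_rfl)
        (smul_ne_zero (hf (X ^ m + r₀.1)).1 hW) (w := (n * (n * m + dp) : ℕ) + b) (fun i j => by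
          rw [Matrix.smul_apply, smul_eq_mul, map_mul, map_mul, WithZero.exp_add]
          exact mul_le_mul' (v2 r₀) (hb i j)) (by
          simp only [Finset.forall_mem_image, ← hP]
          exact fun r hr => hΔ _ _ (Finset.mem_filter.1 (h1 hr)).2)
      rw [Finset.card_image_of_injective _ fun r r' h => Subtype.ext (add_left_cancel
        (expand_injective (NeZero.pos n) (mul_right_cancel₀ p0 h))), h2] at k
      zify at t5
      push_cast at k
      nlinarith
  rw [Finset.card_univ, ← Nat.card_eq_fintype_card, Nat.card_congr (degreeLTEquiv F e).toEquiv,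
    Nat.card_fun, Nat.card_eq_fintype_card (α := Fin e), Fintype.card_fin] at k1
  have q2 : 2 ≤ Nat.card F := Finite.one_lt_card
  have k2 : n * Nat.card F ^ (e / 2) ≤ Nat.card F ^ e :=
    (Nat.mul_le_mul_right _ (Nat.lt_pow_self q2).le).trans
      (by rw [← pow_add]; exact Nat.pow_le_pow_right (by omega) (by omega))
  refine le_trans (Nat.cast_le.2 (Nat.le_of_mul_le_mul_left (k2.trans k1) (by omega))) ?_
  rw [← Set.encard_coe_eq_coe_finsetCard]
  refine Set.encard_le_encard fun O hO => ?_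
  obtain ⟨r, -, rfl⟩ := Finset.mem_image.1 (Finset.mem_coe.1 hO)
  obtain ⟨z, hz⟩ : ∃ z, z = fun i => emb F (P (X ^ m + r.1)).det * lam i := ⟨_, rfl⟩
  have z0 : (Matrix.of fun i j : Fin n => ∑ l, z l ^ (i : ℕ) * z l ^ (j : ℕ)).det ≠ 0 := by
    have : (Matrix.of fun i j : Fin n => ∑ l, z l ^ (i : ℕ) * z l ^ (j : ℕ)) =
      (vandermonde z)ᵀ * vandermonde z := rfl
    have h := det_vandermonde_ne_zero_iff.2 (hz ▸ li (X ^ m + r.1))
    rw [this, det_mul, det_transpose]
    exact mul_ne_zero h h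
  refine ⟨hc _, hs _, _, rfl, fun i k => z k ^ (i : ℕ), fun i => ?_, z0, ?_⟩
  · obtain ⟨M, hM⟩ := hp (X ^ m + r.1)
    refine ⟨M ^ (i : ℕ), ?_⟩
    rw [← RingHom.mapMatrix_apply, map_pow, RingHom.mapMatrix_apply,
      SemiconjBy.eq (SemiconjBy.pow_right hM.symm i),
      show (l (X ^ m + r.1)).val = diagonal z by rw [hz]; rfl, diagonal_pow]
    rfl
  · refine (HahnSeries.le_order_iff_forall z0).2 (vv_le_iff.1 ((det_le _
      (fun _ => ((2 * n * (n * (n * m + dp) + lb) : ℕ) : ℤ)) fun i j => ?_).trans ?_))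
    · rw [of_apply]
      refine Valuation.map_sum_le _ fun k _ => ?_
      have h1 : vv (z k) ≤ exp ((n * (n * m + dp) + lb : ℕ) : ℤ) := by
        rw [hz, map_mul, Nat.cast_add, WithZero.exp_add]
        exact mul_le_mul' (v2 r) (by simpa using hlb k k)
      rw [← pow_add, map_pow]
      refine (pow_le_pow_left' h1 _).trans ?_
      rw [← WithZero.exp_nsmul, exp_le_exp, nsmul_eq_mul, ← Nat.cast_mul, Nat.cast_le]
      exact Nat.mul_le_mul_right _ (by have := i.2; have := j.2; omega)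
    · rw [exp_le_exp, Finset.sum_const, Finset.card_univ, Fintype.card_fin, nsmul_eq_mul]
      exact_mod_cast t3

end Pool.Agent.MP_c07293_an.H78
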