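import Pool.Agent.MP_c07293_an.H78.Kap

/-! Truncation, the pigeonhole principle, and diagonalisation near a regular diagonal matrix. -/

set_option autoImplicit false

namespace Pool.Agent.MP_c07293_an.H78

open Polynomial WithZero Matrix H82

variable {G : Type} [Field G] {n : ℕ}

theorem trunc (x : LaurentSeries G) : ∃ p : G[X], vv (x - emb G p) ≤ exp (-1) := by
  obtain ⟨d, hd⟩ := exists_bound x
  refine ⟨∑ k ∈ Finset.range (d.toNat + 1), C (x.coeff (-k)) * X ^ k, vv_le_iff.2 fun k hk => ?_⟩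
  simp only [map_sum, map_mul, map_pow, emb_eq, ev_C, ev_X, uu_pow]
  obtain ⟨l, rfl⟩ : ∃ l : ℕ, k = -l := ⟨(-k).toNat, by omega⟩
  rw [HahnSeries.coeff_sub, HahnSeries.coeff_sum, sub_eq_zero]
  simp only [uu, HahnSeries.C_apply, HahnSeries.single_mul_single, zero_add, mul_one,
    HahnSeries.coeff_single, neg_inj, Nat.cast_inj, Finset.sum_ite_eq, Finset.mem_range]
  split_ifs with h
  · rfl
  · exact vv_le_iff.1 hd _ (by omega)

theorem dirichlet [Finite G] {ι : Type} [Finite ι] (ξ : ι → LaurentSeries G) (R : ℕ) :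
    ∃ (p : G[X]) (z : ι → G[X]), p ≠ 0 ∧
      ∀ i, vv (emb G p * ξ i - emb G (z i)) ≤ exp (-(R : ℤ) - 1) := by
  obtain ⟨a, b, hab, h⟩ := Finite.exists_ne_map_eq_of_infinite
    fun (m : ℕ) (i : ι) (r : Fin R) => (emb G (X ^ m) * ξ i).coeff ((r : ℕ) + 1)
  choose z hz using fun i => trunc (emb G (X ^ a - X ^ b) * ξ i)
  refine ⟨X ^ a - X ^ b, z, sub_ne_zero.2 fun e => hab (by simpa using congrArg natDegree e),
    fun i => vv_le_iff.2 fun k hk => ?_⟩
  by_cases h1 : k < 1
  · exact vv_le_iff.1 (hz i) k h1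
  · have h2 := congrFun (congrFun h i) ⟨(k - 1).toNat, by omega⟩
    simp only [Int.toNat_of_nonneg (show 0 ≤ k - 1 by omega), sub_add_cancel] at h2
    have h3 : ∀ p : G[X], (emb G p).coeff k = 0 := fun p => by
      induction p using Polynomial.induction_on' with
      | add p q hp hq => rw [map_add, HahnSeries.coeff_add, hp, hq, add_zero]
      | monomial l a =>
        simp only [← C_mul_X_pow_eq_monomial, map_mul, map_pow, emb_eq, ev_C, ev_X, uu_pow]
        rw [uu, HahnSeries.C_apply, HahnSeries.single_mul_single,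
          HahnSeries.coeff_single_of_ne (by omega)]
    rw [HahnSeries.coeff_sub, h3, map_sub, sub_mul, HahnSeries.coeff_sub, h2, sub_self, sub_zero]

theorem det_near (M : Matrix (Fin n) (Fin n) (LaurentSeries G))
    (h : ∀ i j, vv ((M - 1) i j) ≤ exp (-1)) : M.det ≠ 0 := by
  choose p hp using fun i j => (LaurentSeries.val_le_one_iff_eq_coe G _).mp
    ((h i j).trans (show exp (-1 : ℤ) ≤ 1 by rw [← exp_zero, exp_le_exp]; omega))
  have h1 : M = (HahnSeries.ofPowerSeries ℤ G).mapMatrix (Matrix.of p + 1) := by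
    rw [map_add, map_one, ← sub_eq_iff_eq_add]
    exact Matrix.ext fun i j => (hp i j).symm
  have h2 : (PowerSeries.constantCoeff (R := G)).mapMatrix (Matrix.of p + 1) = 1 := by
    rw [map_add, map_one, add_eq_right]
    exact Matrix.ext fun i j => (vv_coe_lt _).1 (hp i j ▸ h i j)
  rw [h1, ← RingHom.map_det, map_ne_zero_iff _ HahnSeries.ofPowerSeries_injective]
  intro h0
  have := congrArg det h2
  rw [← RingHom.map_det, h0, map_zero, det_one] at this
  exact zero_ne_one this

theorem exists_fix {ι : Type} (T : (ι → PowerSeries G) → ι → PowerSeries G)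
    (h : ∀ k x y, (∀ i, PowerSeries.X ^ k ∣ x i - y i) → ∀ i, PowerSeries.X ^ k ∣ T x i - T y i) :
    ∃ x, ∀ i, x i = PowerSeries.X * T x i := by
  obtain ⟨S, hS⟩ : ∃ S : (ι → PowerSeries G) → ι → PowerSeries G,
    S = fun x i => PowerSeries.X * T x i := ⟨_, rfl⟩
  have h1 : ∀ k x y, (∀ i, PowerSeries.X ^ k ∣ x i - y i) →
      ∀ i, PowerSeries.X ^ (k + 1) ∣ S x i - S y i := fun k x y hxy i => by
    rw [hS, pow_succ']
    simp only [← mul_sub]
    exact mul_dvd_mul_left _ (h k x y hxy i)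
  have h2 : ∀ k m i, PowerSeries.X ^ k ∣ S^[k + m] 0 i - S^[k] 0 i := fun k m => by
    induction k with
    | zero => simp
    | succ k ih =>
      rw [add_right_comm, Function.iterate_succ_apply', Function.iterate_succ_apply']
      exact h1 k _ _ ih
  obtain ⟨x, hx⟩ : ∃ x : ι → PowerSeries G, ∀ k i, PowerSeries.X ^ k ∣ x i - S^[k] 0 i := by
    refine ⟨fun i => PowerSeries.mk fun j => PowerSeries.coeff j (S^[j + 1] 0 i), fun k i => ?_⟩
    refine PowerSeries.X_pow_dvd_iff.2 fun j hj => ?_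
    obtain ⟨m, rfl⟩ : ∃ m, k = j + 1 + m := ⟨k - (j + 1), by omega⟩
    have := PowerSeries.X_pow_dvd_iff.1 (h2 (j + 1) m i) j (by omega)
    rw [map_sub, sub_eq_zero] at this ⊢
    rw [PowerSeries.coeff_mk, this]
  refine ⟨x, fun i => PowerSeries.ext fun j => ?_⟩
  have h3 := dvd_sub (hx (j + 1) i) (h1 j _ _ (hx j) i)
  rw [Function.iterate_succ_apply', sub_sub_sub_cancel_right, hS] at h3
  have := PowerSeries.X_pow_dvd_iff.1 h3 j (by omega)
  rwa [map_sub, sub_eq_zero] at this

theorem diag_near (M : Matrix (Fin n) (Fin n) (LaurentSeries G))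
    (hM : ∀ i j, vv ((M - diagonal fun i : Fin n => uu G (-(i : ℕ))) i j) ≤ exp (-(n : ℤ))) :
    ∃ (h : Matrix (Fin n) (Fin n) (LaurentSeries G)) (l : Fin n → LaurentSeries G), h.det ≠ 0 ∧
      (∀ i, vv (l i) = exp (-((i : ℕ) : ℤ))) ∧ h * M = diagonal l * h := by
  have co : ∀ x : LaurentSeries G, vv x ≤ 1 → ∃ p : PowerSeries G, (p : LaurentSeries G) = x :=
    fun x => (LaurentSeries.val_le_one_iff_eq_coe G x).mp
  choose ε hε using fun i j => co
    ((M - diagonal fun i : Fin n => uu G (-(i : ℕ))) i j * uu G n) (by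
      rw [map_mul, vv_uu, ← exp_zero, ← neg_add_cancel (n : ℤ), WithZero.exp_add]
      exact mul_le_mul' (hM i j) le_rfl)
  have hne : ∀ i j : Fin n, i ≠ j → exp (1 - (n : ℤ)) ≤ vv (uu G (-(j : ℕ)) - uu G (-(i : ℕ))) := by
    intro i j hij
    rw [sub_eq_add_neg (uu G _), Valuation.map_add_of_distinct_val _ (by
      rw [Valuation.map_neg, vv_uu, vv_uu, Ne, exp_inj, neg_inj, Nat.cast_inj]
      exact fun h => hij (Fin.ext h.symm)), vv_uu]
    exact le_max_of_le_left (exp_le_exp.2 (by have := j.2; omega))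
  choose γ hγ using fun i j : Fin n => co (if i = j then 0 else
    uu G (1 - n) / (uu G (-(j : ℕ)) - uu G (-(i : ℕ)))) (by
      split_ifs with h
      · simp
      · rw [map_div₀, vv_uu]
        exact div_le_one_of_le₀ (hne i j h) zero_le)
  obtain ⟨O, hO⟩ := exists_fix (ι := Fin n × Fin n) (G := G) (fun O p => γ p.1 p.2 *
    ((ε p.1 p.1 + ∑ k, O (p.1, k) * ε k p.1) * O p - (ε p.1 p.2 + ∑ k, O (p.1, k) * ε k p.2)))
    fun k x y hxy p => by
      simp only [← Ideal.mem_span_singleton, ← Ideal.Quotient.eq] at hxy ⊢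
      simp only [map_mul, map_sub, map_add, map_sum, hxy]
  obtain ⟨η, hη⟩ : ∃ η : Fin n → Fin n → PowerSeries G, ∀ i j,
    η i j = ε i j + ∑ k, O (i, k) * ε k j := ⟨_, fun _ _ => rfl⟩
  simp only [← hη] at hO
  have hX : ((PowerSeries.X : PowerSeries G) : LaurentSeries G) = uu G (-1) := by simp [uu]
  have hO' : ∀ i j, (O (i, j) : LaurentSeries G) =
      uu G (-1) * (γ i j * (η i i * O (i, j) - η i j)) := fun i j => by
    have := congrArg (HahnSeries.ofPowerSeries ℤ G) (hO (i, j))
    simpa only [map_mul, map_sub, hX] using this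
  have e1 : uu G (-n) * uu G n = 1 := by rw [← uu_add, neg_add_cancel, uu_zero]
  refine ⟨Matrix.of (fun i j => (O (i, j) : LaurentSeries G)) + 1,
    fun i => uu G (-(i : ℕ)) + uu G (-n) * η i i, det_near _ fun i j => ?_, fun i => ?_, ?_⟩
  · rw [add_sub_cancel_right, of_apply, vv_coe_lt, hO]
    simp
  · rw [Valuation.map_add_eq_of_lt_left _ ?_, vv_uu]
    rw [map_mul, vv_uu, vv_uu]
    exact lt_of_le_of_lt (mul_le_of_le_one_right' (vv_coe _))
      (exp_lt_exp.2 (by have := i.2; omega))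
  · have e2 : M = diagonal (fun i : Fin n => uu G (-(i : ℕ))) +
        uu G (-n) • Matrix.of fun i j => (ε i j : LaurentSeries G) := by
      ext1 i j
      rw [Matrix.add_apply, Matrix.smul_apply, of_apply, hε, smul_eq_mul, mul_left_comm, e1,
        mul_one, Matrix.sub_apply, add_sub_cancel]
    have e3 : ∀ i j, ((Matrix.of (fun i j => (O (i, j) : LaurentSeries G)) + 1) *
        Matrix.of fun i j => (ε i j : LaurentSeries G)) i j = η i j := fun i j => by
      rw [add_mul, one_mul, Matrix.add_apply, Matrix.mul_apply, hη, map_add, map_sum, add_comm]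
      simp only [of_apply, map_mul]
    ext1 i j
    rw [e2, mul_add, Matrix.mul_smul, Matrix.add_apply, Matrix.smul_apply, e3, mul_diagonal,
      diagonal_mul, Matrix.add_apply, of_apply, smul_eq_mul]
    have e4 := hO' i j
    rw [hγ] at e4
    by_cases hij : i = j
    · subst hij
      rw [if_pos rfl, zero_mul, mul_zero] at e4
      rw [e4, one_apply_eq]
      ring
    · have e5 : uu G (-(j : ℕ)) - uu G (-(i : ℕ)) ≠ 0 := fun h => by
        have := hne i j hij
        rw [h, map_zero, le_zero_iff] at this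
        exact exp_ne_zero this
      have e6 : uu G (-1) * uu G (1 - n) = uu G (-n) := by rw [← uu_add]; congr 1; ring
      rw [if_neg hij, ← mul_assoc, ← mul_div_assoc, e6, div_mul_eq_mul_div, eq_div_iff e5] at e4
      rw [one_apply_ne hij]
      linear_combination e4

end Pool.Agent.MP_c07293_an.H78
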