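import Pool.Agent.MP_c07293_an.H78.Glue

/-! The division algebra as a ring of matrices: anisotropy and density. -/

set_option autoImplicit false

namespace Pool.Agent.MP_c07293_an.H78

open Polynomial WithZero Matrix H82

variable {F E : Type} [Field F] [Field E] {n : ℕ} [NeZero n]

omit [NeZero n] in
theorem sm_emb (p : E[X]) (M : Matrix (Fin n) (Fin n) E[X]) :
    (emb E).mapMatrix (p • M) = emb E p • (emb E).mapMatrix M := by ext1 i j; simp

omit [NeZero n] in
theorem smul_PM (p : E[X]) {W : Matrix (Fin n) (Fin n) (LaurentSeries E)}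
    (h : W ∈ (emb E).mapMatrix.range) : emb E p • W ∈ (emb E).mapMatrix.range := by
  obtain ⟨M, rfl⟩ := h
  exact ⟨_, sm_emb p M⟩

/-- matrices with rational entries -/
def Rat (E : Type) [Field E] (n : ℕ) : Subring (Matrix (Fin n) (Fin n) (LaurentSeries E)) where
  carrier := {W | ∃ p : E[X], p ≠ 0 ∧ emb E p • W ∈ (emb E).mapMatrix.range}
  mul_mem' := by
    rintro a b ⟨p, p0, hp⟩ ⟨q, q0, hq⟩
    refine ⟨p * q, mul_ne_zero p0 q0, ?_⟩
    rw [map_mul, ← smul_mul_smul_comm]
    exact mul_mem hp hq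
  one_mem' := ⟨1, one_ne_zero, by rw [map_one, one_smul]; exact one_mem _⟩
  add_mem' := by
    rintro a b ⟨p, p0, M, hp⟩ ⟨q, q0, M', hq⟩
    refine ⟨p * q, mul_ne_zero p0 q0, q • M + p • M', ?_⟩
    ext1 i j
    have h1 := congrFun (congrFun hp i) j
    have h2 := congrFun (congrFun hq i) j
    simp only [RingHom.mapMatrix_apply, map_apply, Matrix.smul_apply, Matrix.add_apply,
      smul_eq_mul, map_add, map_mul] at h1 h2 ⊢
    rw [h1, h2]
    ring
  zero_mem' := ⟨1, one_ne_zero, by rw [smul_zero]; exact zero_mem _⟩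
  neg_mem' := by
    rintro a ⟨p, p0, hp⟩
    exact ⟨p, p0, by rw [smul_neg]; exact neg_mem hp⟩

theorem rho_Rat {z : LaurentSeries E} {p g : E[X]} (p0 : p ≠ 0)
    (h : emb E (expand E n p) * z = emb E g) : rho E n z ∈ Rat E n :=
  ⟨p, p0, by rw [← one_mul (rho E n z), ← smul_mul_assoc, ← rho_ps, ps_emb, ← map_mul, h]
             exact rho_emb g⟩

omit [NeZero n] in
theorem cm_mat (φ : F →+* E) (M : Matrix (Fin n) (Fin n) F[X]) :
    (cm φ).mapMatrix ((emb F).mapMatrix M) = (emb E).mapMatrix ((mapRingHom φ).mapMatrix M) :=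
  Matrix.ext fun _ _ => cm_emb φ _

omit [NeZero n] in
theorem cm_smul (φ : F →+* E) (c : LaurentSeries F) (W : Matrix (Fin n) (Fin n) (LaurentSeries F)) :
    (cm φ).mapMatrix (c • W) = cm φ c • (cm φ).mapMatrix W := by ext1 i j; simp

omit [NeZero n] in
theorem cm_Rat (φ : E →+* E) {W : Matrix (Fin n) (Fin n) (LaurentSeries E)} (h : W ∈ Rat E n) :
    (cm φ).mapMatrix W ∈ Rat E n := by
  obtain ⟨p, p0, M, hM⟩ := h
  exact ⟨p.map φ, Polynomial.map_ne_zero p0, (mapRingHom φ).mapMatrix M, by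
    rw [← cm_mat, hM, cm_smul, cm_emb]⟩

theorem aniso (φ : E →+* E) {a : LaurentSeries E} {p₁ g : E[X]}
    (hg : emb E (expand E n p₁) * a = emb E g) (hv : vv (ev (uu E (-1)) g) = exp (-1))
    {W : Matrix (Fin n) (Fin n) (LaurentSeries E)}
    (hW : rho E n a * W = (cm φ).mapMatrix W * rho E n a) {p : E[X]} (p0 : p ≠ 0)
    {M : Matrix (Fin n) (Fin n) E[X]} (hM : (emb E).mapMatrix M = emb E p • W) (h0 : M.det = 0) :
    W = 0 := by
  obtain ⟨κ, hκ⟩ : ∃ κ : (Fin n → E[X]) → E[X], ∀ r, κ r = ∑ j, expand E n (r j) * X ^ (j : ℕ) :=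
    ⟨_, fun _ => rfl⟩
  have k1 : ∀ r, emb E (κ r) = kap fun j => emb E (r j) := fun r => by
    simp only [hκ, kap, map_sum, map_mul, map_pow, ps_emb]
    simp only [emb_eq, ev_X, uu_pow]
  have k2 : ∀ (r : Fin n → E[X]) (A : Matrix (Fin n) (Fin n) E[X]),
      (fun j => emb E ((r ᵥ* A) j)) = (fun j => emb E (r j)) ᵥ* (emb E).mapMatrix A :=
    fun r A => funext fun j => RingHom.map_vecMul _ _ _ _
  obtain ⟨r, r0, hr⟩ := exists_vecMul_eq_zero_iff.2 h0
  obtain ⟨e, he⟩ := exists_exp ((good_ev (vv_uu (F := E) (-1)) (by norm_num)).ne_zero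
    (f := κ r) fun h => r0 (funext fun j => emb_inj (congrFun (kap_inj (r' := 0)
      (by rw [← k1, h]; simp [kap])) j |>.trans (map_zero _).symm)))
  obtain ⟨A, hA⟩ := rho_emb (n := n) g
  have k3 : ∀ k : ℕ, ∃ r : Fin n → E[X], (fun j => emb E (r j)) ᵥ* W = 0 ∧
      vv (ev (uu E (-1)) (κ r)) = exp (e - k) := fun k => by
    induction k with
    | zero =>
      refine ⟨r, smul_right_injective _ ((map_ne_zero_iff _ emb_inj).2 p0) ?_, by simpa using he⟩
      simp only
      rw [← vecMul_smul, ← hM, ← k2, hr, smul_zero]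
      exact funext fun j => map_zero _
    | succ k ih =>
      obtain ⟨r, h1, h2⟩ := ih
      refine ⟨(fun j => (r j).map φ) ᵥ* A, ?_, ?_⟩
      · rw [k2, hA, ← hg, map_mul, ← ps_emb, rho_ps, vecMul_vecMul, smul_mul_assoc, one_mul,
          smul_mul_assoc, hW, vecMul_smul, ← vecMul_vecMul]
        have : (fun j => emb E ((r j).map φ)) ᵥ* (cm φ).mapMatrix W = 0 := funext fun j => by
          have := RingHom.map_vecMul (cm φ) W (fun j => emb E (r j)) j
          rw [h1, Pi.zero_apply, map_zero] at this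
          simp only [← cm_emb]
          exact this.symm
        rw [this, zero_vecMul, smul_zero]
      · have : κ ((fun j => (r j).map φ) ᵥ* A) = (κ r).map φ * g := emb_inj (by
          rw [k1, k2, hA, kap_rho, map_mul, ← cm_emb, k1, ← kap_cm]
          simp only [cm_emb])
        rw [this, map_mul, map_mul, ← cm_ev, vv_cm, h2, hv, ← WithZero.exp_add]
        congr 1
        push_cast
        ring
  choose ρ h1 h2 using k3
  have k4 : (Matrix.of fun k : Fin n => ρ k).det ≠ 0 := fun h => by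
    obtain ⟨c, c0, hc⟩ := exists_vecMul_eq_zero_iff.2 h
    have s0 : ∑ k : Fin n, ev (uu E (-1)) (expand E n (c k) * κ (ρ k)) = 0 := by
      have := congrArg κ hc
      simp only [hκ, vecMul, dotProduct, map_sum, map_mul, Finset.sum_mul, of_apply, Pi.zero_apply,
        map_zero, zero_mul, Finset.sum_const_zero, mul_assoc] at this
      rw [Finset.sum_comm] at this
      simp only [← Finset.mul_sum, ← hκ] at this
      rw [← map_sum, this, map_zero]
    have s1 : ∀ k : Fin n, c k ≠ 0 → ∃ m : ℤ,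
        vv (ev (uu E (-1)) (expand E n (c k) * κ (ρ k))) = exp (n * m + (e - (k : ℕ))) := by
      intro k hk
      obtain ⟨j, -, hj, -⟩ := (good_ev (vv_uu (F := E) (-n)) (neg_ne_zero.2 (n_pos n).ne')).spec hk
      refine ⟨-j, ?_⟩
      have : ev (uu E (-1)) (expand E n (c k)) = ev (uu E (-n)) (c k) := by
        rw [ev, ev, coe_eval₂RingHom, coe_eval₂RingHom, expand_eq_comp_X_pow, eval₂_comp,
          eval₂_X_pow]
        congr 1
        rw [uu, uu, HahnSeries.single_pow]
        simp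
      rw [map_mul, map_mul, h2, this, WithZero.exp_add, mul_neg, ← neg_mul, ← hj]
      rfl
    obtain ⟨k, hk⟩ := Finite.exists_max
      fun k : Fin n => vv (ev (uu E (-1)) (expand E n (c k) * κ (ρ k)))
    obtain ⟨l, hl⟩ := Function.ne_iff.1 c0
    obtain ⟨m, hm⟩ := s1 l hl
    have s2 : 0 < vv (ev (uu E (-1)) (expand E n (c k) * κ (ρ k))) :=
      lt_of_lt_of_le (hm ▸ exp_pos) (hk l)
    have s3 := Valuation.map_sum_eq_of_lt vv (Finset.mem_univ k)
      (f := fun k : Fin n => ev (uu E (-1)) (expand E n (c k) * κ (ρ k))) fun i hi => by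
        by_cases hi0 : c i = 0
        · simpa [hi0] using s2
        refine lt_of_le_of_ne (hk i) fun e1 => ?_
        obtain ⟨m1, e2⟩ := s1 i hi0
        obtain ⟨m2, e3⟩ := s1 k fun h => by simp [h] at s2
        rw [e2, e3, exp_inj] at e1
        have b1 := i.2
        have b2 := k.2
        have := Int.eq_zero_of_abs_lt_dvd (show (n : ℤ) ∣ ((i : ℕ) : ℤ) - (k : ℕ) from
          ⟨m1 - m2, by linarith⟩) (abs_lt.2 ⟨by omega, by omega⟩)
        exact (by simpa using hi : i ≠ k) (Fin.ext (by omega))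
    rw [s0, map_zero] at s3
    exact s2.ne s3
  have k5 : IsUnit ((emb E).mapMatrix (Matrix.of fun k : Fin n => ρ k)) := by
    rw [isUnit_iff_isUnit_det, ← RingHom.map_det]
    exact ((map_ne_zero_iff _ emb_inj).2 k4).isUnit
  exact k5.mul_right_eq_zero.1 (Matrix.ext fun i => congrFun (h1 i))

omit [NeZero n] in
theorem cm_cm (φ : E →+* E) (i : ℕ) (W : Matrix (Fin n) (Fin n) (LaurentSeries E)) :
    (cm φ).mapMatrix ((cm (φ ^ i)).mapMatrix W) = (cm (φ ^ (i + 1))).mapMatrix W := by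
  rw [pow_succ']; rfl

omit [NeZero n] in
theorem cm_one (W : Matrix (Fin n) (Fin n) (LaurentSeries E)) (φ : E →+* E) :
    (cm (φ ^ 0)).mapMatrix W = W := rfl

theorem per_fin (φ : E →+* E) (hper : ∀ x : E, ∃ N, 0 < N ∧ (φ ^ N) x = x) (S : Finset E) :
    ∃ N, 0 < N ∧ ∀ k, ∀ x ∈ S, (φ ^ (N * k)) x = x := by
  choose N h0 h using hper
  refine ⟨∏ x ∈ S, N x, Finset.prod_pos fun x _ => h0 x, fun k x hx => ?_⟩
  obtain ⟨l, hl⟩ := Finset.dvd_prod_of_mem N hx
  rw [hl, mul_assoc, pow_mul, RingHom.coe_pow]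
  exact Function.iterate_fixed (h x) _

theorem divring (ι : F →+* E) (φ : E →+* E) (hι : ∀ x, φ (ι x) = ι x)
    (hfix : ∀ x, φ x = x → ∃ z, ι z = x) (hper : ∀ x : E, ∃ N, 0 < N ∧ (φ ^ N) x = x)
    (htr : ∀ N, 0 < N → ∃ e : E, ∑ i ∈ Finset.range N, (φ ^ i) e = 1) {a y : LaurentSeries E}
    (y0 : y ≠ 0) (hy : y = a * cm φ y) (ha : rho E n a ∈ Rat E n) {p₁ g : E[X]} (p1 : p₁ ≠ 0)
    (hg : emb E (expand E n p₁) * a⁻¹ = emb E g) (hv : vv (ev (uu E (-1)) g) = exp (-1))
    (hN : ∃ N, 0 < N ∧ ∀ k, ∃ c, cm (φ ^ (N * k)) y = ps E n c * y) :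
    ∃ D : Subring (Matrix (Fin n) (Fin n) (LaurentSeries F)), (∀ p, rho F n (emb F p) ∈ D) ∧
      (∀ (M : Matrix (Fin n) (Fin n) (LaurentSeries F)) (R : ℕ),
        ∃ Z ∈ D, ∀ i j, vv ((Z - M) i j) ≤ exp (-(R : ℤ))) ∧
      ∀ (τ : Type) [Fintype τ] (Z : τ → Matrix (Fin n) (Fin n) (LaurentSeries F)),
        (∀ l, Z l ∈ D) → ∃ c : ℤ, ∀ p : τ → F[X], ∑ l, Z l * rho F n (emb F (p l)) ≠ 0 →
          exp c ≤ vv (∑ l, Z l * rho F n (emb F (p l))).det := by
  classical
  have a0 : a ≠ 0 := left_ne_zero_of_mul (hy ▸ y0)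
  have i1 : ∀ {z : LaurentSeries E}, z ≠ 0 → rho E n z * rho E n z⁻¹ = 1 := fun h => by
    rw [← map_mul, mul_inv_cancel₀ h, map_one]
  have i2 : ∀ {z : LaurentSeries E}, z ≠ 0 → rho E n z⁻¹ * rho E n z = 1 := fun h => by
    rw [← map_mul, inv_mul_cancel₀ h, map_one]
  let cj : Matrix (Fin n) (Fin n) (LaurentSeries E) →+* Matrix (Fin n) (Fin n) (LaurentSeries E) :=
    { toFun := fun W => rho E n y * W * rho E n y⁻¹
      map_one' := by rw [mul_one, i1 y0]
      map_mul' := fun A B => by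
        simp only [mul_assoc]
        rw [← mul_assoc (rho E n y⁻¹), i2 y0, one_mul]
      map_zero' := by simp
      map_add' := fun A B => by rw [mul_add, add_mul] }
  have c0 : ∀ W, cj W = rho E n y * W * rho E n y⁻¹ := fun _ => rfl
  have c1 : ∀ z, cj (rho E n z) = rho E n z := fun z => by
    rw [c0, ← map_mul, ← map_mul, mul_comm y, mul_inv_cancel_right₀ y0]
  have c2 : ∀ W, rho E n a⁻¹ * cj ((cm φ).mapMatrix W) =
      (cm φ).mapMatrix (cj W) * rho E n a⁻¹ := fun W => by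
    have e : cm φ y = a⁻¹ * y := by rw [eq_inv_mul_iff_mul_eq₀ a0, ← hy]
    rw [c0, c0, map_mul, map_mul, rho_cm, rho_cm, map_inv₀ (cm φ), e, mul_assoc _ _ (rho E n a⁻¹),
      ← map_mul, map_mul _ a⁻¹ y, mul_inv, inv_inv, mul_comm a, mul_inv_cancel_right₀ a0]
    simp only [mul_assoc]
  have c3 : ∀ (f : E →+* E) (Z : Matrix (Fin n) (Fin n) (LaurentSeries F)), (∀ x, f (ι x) = ι x) →
      (cm f).mapMatrix ((cm ι).mapMatrix Z) = (cm ι).mapMatrix Z := fun f Z h => by
    ext i j k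
    exact h _
  have c4 : ∀ (c : LaurentSeries E) W, cj (c • W) = c • cj W := fun c W => by
    rw [c0, c0, Matrix.mul_smul, smul_mul_assoc]
  refine ⟨(Rat E n).comap (cj.comp (cm ι).mapMatrix), fun p => ?_, fun M R => ?_,
    fun τ _ Z hZ => ?_⟩
  · rw [Subring.mem_comap, RingHom.comp_apply, rho_cm, c1, cm_emb]
    exact rho_Rat (g := p.map ι) one_ne_zero (by rw [map_one, map_one, one_mul])
  · obtain ⟨B, hB⟩ := mat_bound (rho E n y⁻¹)
    obtain ⟨B', hB'⟩ := mat_bound (rho E n y)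
    choose W hW using fun i j => trunc (uu E (B + B' + R : ℕ) * cj ((cm ι).mapMatrix M) i j)
    obtain ⟨Z₀, hZ₀⟩ : ∃ Z₀, Z₀ = rho E n y⁻¹ * (uu E (-(B + B' + R : ℕ)) •
      (emb E).mapMatrix (Matrix.of W)) * rho E n y := ⟨_, rfl⟩
    have u1 : uu E (-(B + B' + R : ℕ)) * uu E (B + B' + R : ℕ) = 1 := by
      rw [← uu_add, neg_add_cancel, uu_zero]
    have z1 : ∀ i j, vv ((Z₀ - (cm ι).mapMatrix M) i j) ≤ exp (-(R : ℤ)) := fun i j => by
      have := vv_mul_le (vv_mul_le hB (B := uu E (-(B + B' + R : ℕ)) •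
        (emb E).mapMatrix (Matrix.of W) - cj ((cm ι).mapMatrix M))
        (b := -(B + B' + R : ℕ) + -1) fun i j => by
          rw [Matrix.sub_apply, ← one_mul (cj _ i j), ← u1, mul_assoc, Matrix.smul_apply,
            smul_eq_mul, ← mul_sub, map_mul, vv_uu, WithZero.exp_add, Valuation.map_sub_swap]
          exact mul_le_mul' le_rfl (hW i j)) hB' i j
      rw [mul_sub, sub_mul, ← hZ₀, c0, ← mul_assoc, ← mul_assoc, i2 y0, one_mul, mul_assoc, i2 y0,
        mul_one] at this
      exact this.trans (exp_le_exp.2 (by omega))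
    have z2 : cj Z₀ ∈ Rat E n := ⟨X ^ (B + B' + R), pow_ne_zero _ X_ne_zero, Matrix.of W, by
      rw [hZ₀, c0, ← mul_assoc, ← mul_assoc, i1 y0, one_mul, mul_assoc, i1 y0, mul_one, smul_smul,
        map_pow, emb_eq, ev_X, uu_pow, mul_comm, u1, one_smul]⟩
    obtain ⟨N₁, n1, h1⟩ := hN
    obtain ⟨N₂, n2, h2⟩ := per_fin φ hper
      (Finset.univ.biUnion fun q : Fin n × Fin n => (W q.1 q.2).coeffs)
    obtain ⟨e, he⟩ := htr (N₁ * N₂) (Nat.mul_pos n1 n2)
    have z3 : (cm (φ ^ (N₁ * N₂))).mapMatrix (emb E (C e) • Z₀) = emb E (C e) • Z₀ := by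
      obtain ⟨c, hc⟩ := h1 N₂
      have c5 : c ≠ 0 := fun h => (_root_.map_ne_zero _).2 y0 (by rw [hc, h, map_zero, zero_mul])
      have e1 : (φ ^ (N₁ * N₂)) e = e := by
        have := Finset.sum_range_succ' (fun i => (φ ^ i) e) (N₁ * N₂)
        rw [Finset.sum_range_succ, he] at this
        simp only [pow_succ', RingHom.coe_mul, Function.comp_apply] at this
        rw [← map_sum, he, map_one] at this
        exact add_left_cancel this
      have e2 : (mapRingHom (φ ^ (N₁ * N₂))).mapMatrix (Matrix.of W) = Matrix.of W := by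
        ext i j k
        rw [RingHom.mapMatrix_apply, map_apply, coe_mapRingHom, coeff_map, of_apply]
        by_cases h : (W i j).coeff k = 0
        · rw [h, map_zero]
        · exact mul_comm N₁ N₂ ▸ h2 N₁ _ (Finset.mem_biUnion.2
            ⟨(i, j), Finset.mem_univ _, coeff_mem_coeffs h⟩)
      rw [cm_smul, cm_emb, map_C, e1, hZ₀, map_mul, map_mul, cm_smul, cm_mat, e2, cm_uu, rho_cm,
        rho_cm, map_inv₀ (cm _), hc, mul_inv, ← map_inv₀ (ps E n), map_mul, map_mul, rho_ps, rho_ps]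
      simp only [smul_mul_assoc, Matrix.mul_smul, one_mul, smul_smul]
      congr 1
      field_simp
    obtain ⟨Z, hZ⟩ : ∃ Z : Matrix (Fin n) (Fin n) (LaurentSeries F), (cm ι).mapMatrix Z =
        ∑ i ∈ Finset.range (N₁ * N₂), (cm (φ ^ i)).mapMatrix (emb E (C e) • Z₀) := by
      have := Finset.sum_range_succ'
        (fun i => (cm (φ ^ i)).mapMatrix (emb E (C e) • Z₀)) (N₁ * N₂)
      rw [Finset.sum_range_succ, z3, cm_one, add_left_inj] at this
      simp only [← cm_cm] at this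
      rw [← map_sum] at this
      generalize ∑ i ∈ Finset.range (N₁ * N₂), (cm (φ ^ i)).mapMatrix (emb E (C e) • Z₀) = S
        at this
      refine ⟨Matrix.of fun i j => (S i j).map (⟨Function.invFun ι, by
        rw [← map_zero ι, Function.leftInverse_invFun ι.injective]⟩ : ZeroHom E F), ?_⟩
      ext i j k
      exact Function.invFun_eq (hfix _ (congrArg (fun A => (A i j).coeff k) this).symm)
    refine ⟨Z, ?_, fun i j => ?_⟩
    · rw [Subring.mem_comap, RingHom.comp_apply, hZ, map_sum]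
      refine sum_mem fun i _ => ?_
      induction i with
      | zero =>
        obtain ⟨p, p0, hp⟩ := z2
        exact ⟨p, p0, by rw [cm_one, c4, smul_comm]; exact smul_PM _ hp⟩
      | succ i ih =>
        rw [← cm_cm, ← one_mul (cj _), ← i1 a0, mul_assoc, c2]
        exact mul_mem ha (mul_mem (cm_Rat φ (ih (by simp at *; omega))) (rho_Rat p1 hg))
    · have e1 : (cm ι).mapMatrix (Z - M) = ∑ i ∈ Finset.range (N₁ * N₂),
          (cm (φ ^ i)).mapMatrix (emb E (C e) • (Z₀ - (cm ι).mapMatrix M)) := by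
        simp only [smul_sub, map_sub, Finset.sum_sub_distrib, hZ, sub_right_inj]
        rw [Finset.sum_congr rfl fun i _ => by
          rw [cm_smul, c3 _ M fun x => by
            rw [RingHom.coe_pow]; exact Function.iterate_fixed (hι x) _, cm_emb, map_C],
          ← Finset.sum_smul, ← map_sum, ← map_sum, he, map_one, map_one, one_smul]
      rw [← vv_cm ι]
      rw [show cm ι ((Z - M) i j) = (cm ι).mapMatrix (Z - M) i j from rfl, e1, Matrix.sum_apply]
      refine Valuation.map_sum_le _ fun l _ => le_of_eq_of_le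
        (vv_cm (φ ^ l) ((emb E (C e) • (Z₀ - (cm ι).mapMatrix M)) i j)) ?_
      rw [Matrix.smul_apply, smul_eq_mul, map_mul, emb_eq, ev_C, ← H82.coe_C]
      exact (mul_le_of_le_one_left' (vv_coe _)).trans (z1 i j)
  · choose p p0 hp using hZ
    have q0 : ∏ l, p l ≠ 0 := Finset.prod_ne_zero_iff.2 fun l _ => p0 l
    obtain ⟨b, hb⟩ := exists_exp (lt_of_lt_of_le zero_lt_one (one_le_emb q0)).ne'
    refine ⟨-(n * b), fun v hv0 => ?_⟩
    obtain ⟨M, hM⟩ : emb E (∏ l, p l) • cj ((cm ι).mapMatrix (∑ l, Z l * rho F n (emb F (v l)))) ∈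
        (emb E).mapMatrix.range := by
      rw [map_sum, map_sum, Finset.smul_sum]
      refine sum_mem fun l _ => ?_
      rw [map_mul, map_mul, rho_cm, c1, cm_emb, ← smul_mul_assoc,
        ← Finset.prod_erase_mul _ _ (Finset.mem_univ l), map_mul, mul_smul]
      exact mul_mem (smul_PM _ (hp l)) (rho_emb _)
    generalize ∑ l, Z l * rho F n (emb F (v l)) = S at hM hv0
    have m0 : M.det ≠ 0 := fun h => hv0 ((cj.comp (cm ι).mapMatrix).injective
      ((aniso φ hg hv (by rw [← c2, c3 _ _ hι]) q0 hM h).trans (map_zero _).symm))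
    have m1 := one_le_emb m0
    rw [RingHom.map_det, hM, det_smul, c0, det_mul, det_mul, mul_right_comm (det _), ← det_mul,
      i1 y0, det_one, one_mul, ← RingHom.map_det, map_mul, vv_cm, map_pow, hb, Fintype.card_fin,
      ← WithZero.exp_nsmul, nsmul_eq_mul] at m1
    rwa [WithZero.exp_neg, inv_le_iff_one_le_mul₀' exp_pos]

end Pool.Agent.MP_c07293_an.H78
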