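import Pool.Agent.MP_c07293_an.H78.Diag

/-! From a dense anisotropic ring of matrices to a bounded family of periodic lattices. -/

set_option autoImplicit false

namespace Pool.Agent.MP_c07293_an.H78

open Polynomial WithZero Matrix H82

variable {F : Type} [Field F] {n : ℕ} [NeZero n]

theorem exists_exp {a : ℤᵐ⁰} (h : a ≠ 0) : ∃ d : ℤ, a = exp d := ⟨_, (exp_log h).symm⟩

theorem glue [Finite F] (hn : 2 ≤ n) (D : Subring (Matrix (Fin n) (Fin n) (LaurentSeries F)))
    (hρ : ∀ p, rho F n (emb F p) ∈ D)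
    (hd : ∀ (M : Matrix (Fin n) (Fin n) (LaurentSeries F)) (R : ℕ),
      ∃ Z ∈ D, ∀ i j, vv ((Z - M) i j) ≤ exp (-(R : ℤ)))
    (hl : ∀ (ι : Type) [Fintype ι] (Z : ι → Matrix (Fin n) (Fin n) (LaurentSeries F)),
      (∀ l, Z l ∈ D) → ∃ c : ℤ, ∀ p : ι → F[X], ∑ l, Z l * rho F n (emb F (p l)) ≠ 0 →
        exp c ≤ vv (∑ l, Z l * rho F n (emb F (p l))).det) :
    ∃ (G x : Matrix (Fin n) (Fin n) (LaurentSeries F)) (lam : Fin n → LaurentSeries F)
      (N A : Matrix (Fin n) (Fin n) F[X]) (p : F[X]) (c : ℕ), G.det ≠ 0 ∧ (∀ i, lam i ≠ 0) ∧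
      Function.Injective lam ∧ diagonal lam * G = G * N.map (emb F) ∧
      x * G = G * A.map (emb F) ∧ ¬ x.IsDiag ∧ p ≠ 0 ∧ ∀ f : F[X],
        ((expand F n f * p) • (1 : Matrix (Fin n) (Fin n) F[X]) + A).det ≠ 0 ∧
        ∀ v : Fin n → F[X], v ≠ 0 → vv (G * ((expand F n f * p) • 1 + A).map (emb F)).det ≤
          (∏ i, vv (((G * ((expand F n f * p) • 1 + A).map (emb F)) *ᵥ fun j => emb F (v j)) i)) *
            exp (c : ℤ) := by
  obtain ⟨δ, hδ, h1⟩ := hd (diagonal fun i : Fin n => uu F (-(i : ℕ))) n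
  obtain ⟨h, l, h0, hv, hdiag⟩ := diag_near δ h1
  have i1 : h * h⁻¹ = 1 := mul_nonsing_inv _ h0.isUnit
  have i2 : h⁻¹ * h = 1 := nonsing_inv_mul _ h0.isUnit
  obtain ⟨B, hB⟩ := mat_bound h
  obtain ⟨B', hB'⟩ := mat_bound h⁻¹
  choose w hw hw' using fun j : Fin n => hd (h⁻¹ * Matrix.single j 0 1) (B + 1)
  obtain ⟨vec, hvec⟩ : ∃ vec : Matrix (Fin n) (Fin n) (LaurentSeries F) → Fin n → LaurentSeries F,
    ∀ Z i, vec Z i = kap ((h * Z) i) := ⟨_, fun _ _ => rfl⟩
  obtain ⟨G, hG⟩ : ∃ G : Matrix (Fin n) (Fin n) (LaurentSeries F), ∀ i j, G i j = vec (w j) i :=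
    ⟨Matrix.of fun i j => vec (w j) i, fun _ _ => rfl⟩
  have G0 : G.det ≠ 0 := det_near G fun i j => by
    have e : (1 : Matrix (Fin n) (Fin n) (LaurentSeries F)) i j =
        kap ((Matrix.single j (0 : Fin n) (1 : LaurentSeries F)) i) := by
      have : (Matrix.single j (0 : Fin n) (1 : LaurentSeries F)) i =
          Pi.single 0 (if i = j then 1 else 0) := by
        ext1 k
        simp [Matrix.single_apply, Pi.single_apply, eq_comm, ite_and]
        split_ifs <;> rfl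
      rw [this, kap_single, one_apply, apply_ite (ps F n), map_one, map_zero]
      simp [uu_zero]
    rw [Matrix.sub_apply, hG, hvec, e, ← kap_sub]
    refine kap_small fun k => ?_
    have := vv_mul_le hB (hw' j) i k
    rw [mul_sub, ← Matrix.mul_assoc, i1, one_mul] at this
    exact this.trans (exp_le_exp.2 (by omega))
  have Gu : IsUnit G := (isUnit_iff_isUnit_det _).2 G0.isUnit
  have v1 : ∀ (ι : Type) [Fintype ι] (Z : ι → Matrix (Fin n) (Fin n) (LaurentSeries F))
      (z : ι → LaurentSeries F) (i : Fin n),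
      vec (∑ l, Z l * rho F n (z l)) i = ∑ l, vec (Z l) i * z l := fun ι _ Z z i => by
    simp only [hvec, ← kap_rho, ← mul_apply_eq_vecMul, Finset.mul_sum, Matrix.mul_assoc]
    simp only [kap, Matrix.sum_apply, map_sum, Finset.sum_mul]
    exact Finset.sum_comm
  have v2 : ∀ y Z, vec (h⁻¹ * y * h * Z) = (ps F n).mapMatrix y *ᵥ vec Z := fun y Z => by
    ext1 i
    rw [hvec, Matrix.mul_assoc, Matrix.mul_assoc, ← Matrix.mul_assoc h, i1, one_mul,
      mul_apply_eq_vecMul, kap_vecMul]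
    simp only [← hvec]
    rfl
  have v3 : ∀ Z, (vv h.det * vv Z.det) ^ n ≤ ∏ i, vv (vec Z i) := fun Z => by
    simp only [hvec]
    rw [← map_mul, ← det_mul]
    exact det_le_kap _
  have v4 : ∀ d, h⁻¹ * (h * d * h⁻¹) * h = d := fun d => by
    rw [← Matrix.mul_assoc, ← Matrix.mul_assoc, i2, one_mul, Matrix.mul_assoc, i2, mul_one]
  obtain ⟨e, he⟩ := exists_exp ((Valuation.ne_zero_iff vv).2 h0)
  have rat : ∀ d ∈ D, ∃ (p : F[X]) (N : Matrix (Fin n) (Fin n) F[X]), p ≠ 0 ∧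
      (emb F p • (ps F n).mapMatrix (h * d * h⁻¹)) * G = G * N.map (emb F) := fun d hdD => by
    obtain ⟨c, hc⟩ := hl (Fin n ⊕ Fin n) (Sum.elim (fun j => d * w j) w) (by
      rintro (j | j)
      · exact mul_mem hdD (hw j)
      · exact hw j)
    obtain ⟨b, hb⟩ := mat_bound G
    obtain ⟨p, z, p0, hz⟩ := dirichlet
      (fun q : Fin n × Fin n => (G⁻¹ * ((ps F n).mapMatrix (h * d * h⁻¹) * G)) q.1 q.2)
      (b - (e + c)).toNat
    refine ⟨p, Matrix.of fun i j => z (i, j), p0, Matrix.ext fun i j => ?_⟩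
    have k1 : ∀ i, vec (∑ l, Sum.elim (fun j => d * w j) w l * rho F n (emb F
        (Sum.elim (Pi.single j p) (fun l => -z (l, j)) l))) i =
        ((emb F p • (ps F n).mapMatrix (h * d * h⁻¹)) * G -
          G * (Matrix.of fun i j => z (i, j)).map (emb F)) i j := fun i => by
      rw [v1, Fintype.sum_sum_type, Finset.sum_eq_single j (fun l _ hl => by simp [hl]) (by simp)]
      simp only [Sum.elim_inl, Sum.elim_inr, Pi.single_eq_same, map_neg, mul_neg,
        Finset.sum_neg_distrib, ← hG]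
      rw [← v4 d, v2, v4, smul_mul_assoc, Matrix.sub_apply, Matrix.smul_apply, sub_eq_add_neg,
        mul_comm, Matrix.mul_apply, Matrix.mul_apply]
      simp only [hG]
      rfl
    have k2 := fun i => vv_mul_le hb (B := emb F p • (G⁻¹ * ((ps F n).mapMatrix (h * d * h⁻¹) * G))
      - (Matrix.of fun i j => z (i, j)).map (emb F)) (fun i j => hz (i, j)) i j
    rw [mul_sub, Matrix.mul_smul, mul_nonsing_inv_cancel_left _ _ G0.isUnit, ← smul_mul_assoc] at k2
    rw [← sub_eq_zero, ← Matrix.sub_apply, ← k1]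
    simp only [← k1] at k2
    by_contra k3
    have k4 := hc _ fun k4 => k3 (by rw [k4, hvec]; simp [kap])
    have k5 := (pow_le_pow_left' (mul_le_mul' he.ge k4) n).trans
      ((v3 _).trans (Finset.prod_le_pow_card _ _ _ fun i _ => k2 i))
    rw [Finset.card_univ, Fintype.card_fin, pow_le_pow_iff_left₀ zero_le zero_le (NeZero.ne n),
      ← WithZero.exp_add, exp_le_exp] at k5
    omega
  obtain ⟨x, hx, hx'⟩ := hd (h⁻¹ * Matrix.single ⟨0, by omega⟩ ⟨1, hn⟩ 1 * h) (B + B' + 1)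
  have x0 : (h * x * h⁻¹) ⟨0, by omega⟩ ⟨1, hn⟩ ≠ 0 := fun k => by
    have := vv_mul_le (vv_mul_le hB hx') hB' ⟨0, by omega⟩ ⟨1, hn⟩
    rw [mul_sub, sub_mul, ← Matrix.mul_assoc h, ← Matrix.mul_assoc h, i1, one_mul,
      Matrix.mul_assoc _ h, i1, mul_one, Matrix.sub_apply, k, single_apply_same, zero_sub,
      Valuation.map_neg, map_one, ← exp_zero, exp_le_exp] at this
    omega
  have ne01 : (⟨0, by omega⟩ : Fin n) ≠ ⟨1, hn⟩ := by simp
  obtain ⟨p₁, N, p1, hN⟩ := rat δ hδ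
  obtain ⟨p, A, p0, hA⟩ := rat x hx
  have e0 : ∀ {q : F[X]}, q ≠ 0 → emb F q ≠ 0 := fun h => (map_ne_zero_iff _ emb_inj).2 h
  obtain ⟨c, hc⟩ := hl (Fin n) w hw
  obtain ⟨g, hg⟩ := exists_exp ((Valuation.ne_zero_iff vv).2 G0)
  refine ⟨G, _, fun i => emb F p₁ * ps F n (l i), N, A, p, (g - n * (e + c)).toNat, G0,
    fun i => mul_ne_zero (e0 p1) ((_root_.map_ne_zero _).2 fun k => ?_), fun i j k => ?_, ?_, hA,
    fun k => mul_ne_zero (e0 p0) ((_root_.map_ne_zero (ps F n)).2 x0) (k ne01), p0, fun f => ?_⟩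
  · have := hv i
    rw [k, map_zero] at this
    exact exp_ne_zero this.symm
  · have := congrArg vv ((ps F n).injective (mul_left_cancel₀ (e0 p1) k))
    rw [hv, hv, exp_inj, neg_inj, Nat.cast_inj] at this
    exact Fin.ext this
  · rw [← hN, hdiag, Matrix.mul_assoc _ h, i1, mul_one, RingHom.mapMatrix_apply,
      diagonal_map (map_zero _), ← diagonal_smul]
    rfl
  obtain ⟨y, hy⟩ : ∃ y, y = emb F f • 1 + h * x * h⁻¹ := ⟨_, rfl⟩
  have y1 : G * ((expand F n f * p) • 1 + A).map (emb F) =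
      emb F p • ((ps F n).mapMatrix y * G) := by
    rw [hy, map_add, add_mul, smul_add, ← smul_mul_assoc _ ((ps F n).mapMatrix (h * x * h⁻¹)), hA,
      Matrix.map_add _ (map_add _), mul_add, smul_one_eq_diagonal, smul_one_eq_diagonal,
      RingHom.mapMatrix_apply, diagonal_map (map_zero _), diagonal_map (map_zero _),
      ← smul_eq_mul_diagonal, ← smul_eq_diagonal_mul, smul_smul, map_mul, ps_emb, mul_comm]
  have y2 : h⁻¹ * y * h = rho F n (emb F (expand F n f)) + x := by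
    rw [hy, mul_add, add_mul, v4, ← ps_emb, rho_ps, Matrix.mul_smul, mul_one, smul_mul_assoc, i2]
  have y3 : y.det ≠ 0 := by
    obtain ⟨c', hc'⟩ := hl Unit (fun _ => h⁻¹ * y * h) fun _ => y2 ▸ add_mem (hρ _) hx
    have k := hc' fun _ => 1
    simp only [map_one, mul_one, Finset.univ_unique, Finset.sum_singleton] at k
    intro k1
    have k2 := k fun k2 => x0 (by
      have k3 : y = 0 := by
        rw [← one_mul y, ← mul_one y, ← i1, Matrix.mul_assoc, ← Matrix.mul_assoc y,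
          ← Matrix.mul_assoc h⁻¹, ← Matrix.mul_assoc h⁻¹, k2, zero_mul, mul_zero]
      have := congrFun (congrFun (hy.symm.trans k3) ⟨0, by omega⟩) ⟨1, hn⟩
      rwa [Matrix.add_apply, Matrix.smul_apply, one_apply_ne ne01, smul_zero, zero_add] at this)
    rw [det_mul, det_mul, k1, mul_zero, zero_mul, map_zero, le_zero_iff] at k2
    exact exp_ne_zero k2
  refine ⟨fun k => ?_, fun v v0 => ?_⟩
  · have := congrArg det y1
    rw [det_mul, ← RingHom.mapMatrix_apply, ← RingHom.map_det, k, map_zero, mul_zero, det_smul,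
      det_mul, ← RingHom.map_det] at this
    exact mul_ne_zero (pow_ne_zero _ (e0 p0)) (mul_ne_zero ((_root_.map_ne_zero _).2 y3) G0) this.symm
  · have k1 : (G *ᵥ fun j => emb F (v j)) = vec (∑ l, w l * rho F n (emb F (v l))) := by
      ext1 i
      rw [v1]
      simp only [← hG]
      rfl
    have k2 := hc v fun k => v0 (funext fun j => emb_inj (by
      have k3 : (G *ᵥ fun j => emb F (v j)) = 0 := by rw [k1, k]; ext1 i; simp [hvec, kap]
      rw [congrFun (eq_zero_of_mulVec_eq_zero G0 k3) j, Pi.zero_apply, Pi.zero_apply, map_zero]))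
    have k3 := v3 (h⁻¹ * y * h * ∑ l, w l * rho F n (emb F (v l)))
    rw [v2, det_mul, det_mul_comm, ← Matrix.mul_assoc, i1, one_mul, map_mul] at k3
    rw [y1, smul_mulVec, ← mulVec_mulVec, k1, det_smul, det_mul, ← RingHom.map_det, map_mul,
      map_mul, vv_ps, map_pow]
    simp only [Pi.smul_apply, smul_eq_mul, map_mul, Finset.prod_mul_distrib, Finset.prod_const,
      Finset.card_univ, mul_assoc]
    refine mul_le_mul' le_rfl (le_trans ?_ (mul_le_mul' k3 le_rfl))
    rw [mul_left_comm, mul_pow, mul_assoc]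
    refine mul_le_mul' le_rfl (le_trans ?_
      (mul_le_mul' (pow_le_pow_left' (mul_le_mul' he.ge k2) n) le_rfl))
    rw [hg, ← WithZero.exp_add, ← WithZero.exp_nsmul, ← WithZero.exp_add, exp_le_exp, nsmul_eq_mul]
    omega

end Pool.Agent.MP_c07293_an.H78
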