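import Pool.Agent.MP_c07293_an.H78.Lat

/-! Laurent series in `X` as a vector space over Laurent series in `X ^ n`. -/

set_option autoImplicit false

namespace Pool.Agent.MP_c07293_an.H78

open Polynomial WithZero Matrix H82

variable {G G' : Type} [Field G] [Field G']

theorem vv_le_iff {x : LaurentSeries G} {d : ℤ} : vv x ≤ exp d ↔ ∀ k, k < -d → x.coeff k = 0 := by
  have := LaurentSeries.valuation_le_iff_coeff_lt_eq_zero G (D := -d) (f := x)
  rwa [neg_neg] at this

theorem le_of_exp {a b : ℤᵐ⁰} (h : ∀ d : ℤ, b ≤ exp d → a ≤ exp d) : a ≤ b := by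
  rcases eq_or_ne b 0 with rfl | hb
  · by_contra ha
    have ha' : a ≠ 0 := fun h0 => ha h0.le
    have := h (log a - 1) zero_le
    rw [← exp_log ha', exp_le_exp, log_exp] at this
    omega
  · rw [← exp_log hb]
    exact h _ (exp_log hb).ge

/-- the coefficientwise map -/
noncomputable def cm (f : G →+* G') : LaurentSeries G →+* LaurentSeries G' where
  toFun x := x.map f
  map_one' := by ext k; simp [HahnSeries.coeff_one, apply_ite f]
  map_mul' _ _ := HahnSeries.map_mul f.toNonUnitalRingHom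
  map_zero' := by ext k; simp
  map_add' _ _ := by ext k; simp

theorem cm_coeff (f : G →+* G') (x : LaurentSeries G) (k : ℤ) :
    (cm f x).coeff k = f (x.coeff k) := rfl

theorem cm_single (f : G →+* G') (k : ℤ) (a : G) :
    cm f (HahnSeries.single k a) = HahnSeries.single k (f a) := by
  ext l
  simp [cm_coeff, HahnSeries.coeff_single, apply_ite f]

theorem cm_uu (f : G →+* G') (d : ℤ) : cm f (uu G d) = uu G' d := by
  rw [uu, cm_single, map_one, uu]

theorem cm_C (f : G →+* G') (a : G) : cm f (HahnSeries.C a) = HahnSeries.C (f a) := cm_single f 0 a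

theorem cm_ev (f : G →+* G') (d : ℤ) (p : G[X]) :
    cm f (ev (uu G d) p) = ev (uu G' d) (p.map f) := by
  induction p using Polynomial.induction_on' with
  | add p q hp hq => simp only [map_add, Polynomial.map_add, hp, hq]
  | monomial k a => simp only [← C_mul_X_pow_eq_monomial, Polynomial.map_mul, Polynomial.map_pow,
      map_C, map_X, map_mul, map_pow, ev_C, ev_X, cm_C, cm_uu]

theorem cm_emb (f : G →+* G') (p : G[X]) : cm f (emb G p) = emb G' (p.map f) := cm_ev f 1 p

theorem vv_cm (f : G →+* G') (x : LaurentSeries G) : vv (cm f x) = vv x := by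
  have : ∀ d : ℤ, vv (cm f x) ≤ exp d ↔ vv x ≤ exp d := fun d => by
    simp only [vv_le_iff, cm_coeff, map_eq_zero]
  exact le_antisymm (le_of_exp fun d => (this d).2) (le_of_exp fun d => (this d).1)

variable {n : ℕ} [NeZero n]

theorem n_pos (n : ℕ) [NeZero n] : (0 : ℤ) < n := by exact_mod_cast NeZero.pos n

/-- the substitution of `X ^ n` for `X` -/
noncomputable def ps (G : Type) [Field G] (n : ℕ) [NeZero n] :
    LaurentSeries G →+* LaurentSeries G :=
  HahnSeries.embDomainRingHom (AddMonoidHom.mulLeft (n : ℤ))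
    (fun _ _ h => mul_left_cancel₀ (n_pos n).ne' h) fun _ _ => mul_le_mul_iff_right₀ (n_pos n)

theorem ps_coeff (x : LaurentSeries G) (k : ℤ) : (ps G n x).coeff (n * k) = x.coeff k :=
  HahnSeries.embDomain_coeff

theorem ps_coeff' (x : LaurentSeries G) {k : ℤ} (h : ¬ (n : ℤ) ∣ k) : (ps G n x).coeff k = 0 :=
  HahnSeries.embDomain_of_notMem_range fun ⟨m, hm⟩ => h ⟨m, hm.symm⟩

theorem ps_uu (d : ℤ) : ps G n (uu G d) = uu G (n * d) := by
  rw [uu, uu, ← mul_neg]
  exact HahnSeries.embDomain_single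

theorem ps_C (a : G) : ps G n (HahnSeries.C a) = HahnSeries.C a := HahnSeries.embDomainRingHom_C

theorem ps_emb (p : G[X]) : ps G n (emb G p) = emb G (expand G n p) := by
  induction p using Polynomial.induction_on' with
  | add p q hp hq => simp only [map_add, hp, hq]
  | monomial k a => simp only [← C_mul_X_pow_eq_monomial, map_mul, map_pow, expand_C, expand_X,
      emb_eq, ev_C, ev_X, ps_C, ps_uu, mul_one, uu_pow n]

theorem cm_ps (f : G →+* G') (x : LaurentSeries G) : cm f (ps G n x) = ps G' n (cm f x) := by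
  ext k
  by_cases h : (n : ℤ) ∣ k
  · obtain ⟨m, rfl⟩ := h
    simp only [cm_coeff, ps_coeff]
  · rw [cm_coeff, ps_coeff' _ h, ps_coeff' _ h, map_zero]

theorem vv_ps (x : LaurentSeries G) : vv (ps G n x) = vv x ^ n := by
  have h1 : ∀ y : LaurentSeries G, vv y = 1 → vv (ps G n y) ≤ 1 := fun y hy => by
    have hy' := hy.le
    rw [← exp_zero, vv_le_iff] at hy' ⊢
    intro k hk
    by_cases h : (n : ℤ) ∣ k
    · obtain ⟨m, rfl⟩ := h
      rw [ps_coeff, hy' m (by have := n_pos n; nlinarith)]
    · exact ps_coeff' _ h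
  rcases eq_or_ne x 0 with rfl | hx
  · simp [NeZero.ne n]
  obtain ⟨d, hd⟩ : ∃ d : ℤ, vv x = exp d := ⟨_, (exp_log (by simpa using hx)).symm⟩
  have h2 : vv (x * uu G (-d)) = 1 := by rw [map_mul, hd, vv_uu, ← exp_add]; simp
  have h3 := h1 _ h2
  have h4 := h1 (x * uu G (-d))⁻¹ (by rw [map_inv₀, h2, inv_one])
  have h5 : vv (ps G n (x * uu G (-d))) ≠ 0 := by simp [hx, uu_ne]
  rw [map_inv₀, map_inv₀, inv_le_one₀ (zero_lt_iff.2 h5)] at h4
  have h6 := le_antisymm h3 h4
  rw [map_mul, map_mul, ps_uu, vv_uu, mul_neg, WithZero.exp_neg, mul_inv_eq_one₀ exp_ne_zero] at h6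
  rw [h6, hd, ← WithZero.exp_nsmul, nsmul_eq_mul]

/-- a row vector as one Laurent series -/
noncomputable def kap (r : Fin n → LaurentSeries G) : LaurentSeries G :=
  ∑ j, ps G n (r j) * uu G (j : ℕ)

theorem kap_coeff (r : Fin n → LaurentSeries G) (j : Fin n) (m : ℤ) :
    (kap r).coeff (n * m - (j : ℕ)) = (r j).coeff m := by
  rw [kap, HahnSeries.coeff_sum, Finset.sum_eq_single j]
  · rw [uu, HahnSeries.coeff_mul_single, mul_one, sub_neg_eq_add, sub_add_cancel, ps_coeff]
  · intro l _ hl
    rw [uu, HahnSeries.coeff_mul_single, mul_one, ps_coeff']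
    rw [sub_neg_eq_add, sub_add, dvd_sub_right (dvd_mul_right _ _)]
    intro h
    have h1 := j.2
    have h2 := l.2
    have h3 := Int.eq_zero_of_abs_lt_dvd h (abs_lt.2 ⟨by omega, by omega⟩)
    exact hl (Fin.ext (by omega))
  · simp

theorem exists_idx (n : ℕ) [NeZero n] (k : ℤ) : ∃ (j : Fin n) (m : ℤ), k = n * m - (j : ℕ) := by
  have h1 := Int.emod_nonneg (-k) (n_pos n).ne'
  have h2 := Int.emod_lt_of_pos (-k) (n_pos n)
  have h3 := Int.mul_ediv_add_emod (-k) n
  refine ⟨⟨(-k % n).toNat, by omega⟩, -(-k / n), ?_⟩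
  rw [Int.toNat_of_nonneg h1]
  linarith

theorem kap_inj {r r' : Fin n → LaurentSeries G} (h : kap r = kap r') : r = r' := by
  ext j m
  rw [← kap_coeff, h, kap_coeff]

theorem kap_surj (n : ℕ) [NeZero n] (z : LaurentSeries G) :
    ∃ r : Fin n → LaurentSeries G, kap r = z := by
  obtain ⟨d, hd⟩ := exists_bound z
  refine ⟨fun j => HahnSeries.ofSuppBddBelow (fun m => z.coeff (n * m - (j : ℕ)))
    ⟨-|d|, fun m hm => not_lt.1 fun h => hm (vv_le_iff.1 hd _ ?_)⟩, ?_⟩
  · have h1 := n_pos n
    have h2 := le_abs_self d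
    have h3 := abs_nonneg d
    nlinarith [Int.natCast_nonneg (j : ℕ)]
  · ext k
    obtain ⟨j, m, rfl⟩ := exists_idx n k
    rw [kap_coeff]
    rfl

theorem kap_ge (r : Fin n → LaurentSeries G) (j : Fin n) : vv (ps G n (r j)) ≤ vv (kap r) := by
  refine le_of_exp fun d h => vv_le_iff.2 fun k hk => ?_
  by_cases h1 : (n : ℤ) ∣ k
  · obtain ⟨m, rfl⟩ := h1
    rw [ps_coeff, ← kap_coeff, vv_le_iff.1 h _ (by omega)]
  · exact ps_coeff' _ h1

theorem kap_small {r : Fin n → LaurentSeries G} (h : ∀ j, vv (r j) ≤ exp (-1)) :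
    vv (kap r) ≤ exp (-1) := by
  refine vv_le_iff.2 fun k hk => ?_
  obtain ⟨j, m, rfl⟩ := exists_idx n k
  rw [kap_coeff]
  refine vv_le_iff.1 (h j) _ (lt_of_mul_lt_mul_left (a := (n : ℤ)) ?_ (n_pos n).le)
  have := j.2
  omega

theorem kap_add (r r' : Fin n → LaurentSeries G) : kap (r + r') = kap r + kap r' := by
  simp only [kap, Pi.add_apply, map_add, add_mul, Finset.sum_add_distrib]

theorem kap_sub (r r' : Fin n → LaurentSeries G) : kap (r - r') = kap r - kap r' := by
  simp only [kap, Pi.sub_apply, map_sub, sub_mul, Finset.sum_sub_distrib]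

theorem kap_single (j : Fin n) (c : LaurentSeries G) :
    kap (Pi.single j c) = ps G n c * uu G (j : ℕ) := by
  rw [kap, Finset.sum_eq_single j (fun l _ hl => by simp [hl]) (by simp), Pi.single_eq_same]

theorem kap_vecMul {ι : Type} [Fintype ι] (r : ι → LaurentSeries G)
    (M : Matrix ι (Fin n) (LaurentSeries G)) : kap (r ᵥ* M) = ∑ i, ps G n (r i) * kap (M i) := by
  simp only [kap, vecMul, dotProduct, map_sum, map_mul, Finset.sum_mul, Finset.mul_sum, mul_assoc]
  exact Finset.sum_comm

theorem kap_cm (f : G →+* G') (r : Fin n → LaurentSeries G) :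
    kap (fun j => cm f (r j)) = cm f (kap r) := by
  simp only [kap, map_sum, map_mul, cm_ps, cm_uu]

theorem exists_rh (n : ℕ) [NeZero n] (z : LaurentSeries G) :
    ∃ M : Matrix (Fin n) (Fin n) (LaurentSeries G), ∀ i, kap (M i) = uu G (i : ℕ) * z := by
  choose M h using fun i : Fin n => kap_surj n (uu G (i : ℕ) * z)
  exact ⟨M, h⟩

/-- the matrix of multiplication -/
noncomputable def rh (n : ℕ) [NeZero n] (z : LaurentSeries G) :
    Matrix (Fin n) (Fin n) (LaurentSeries G) := (exists_rh n z).choose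

theorem kap_rh (z : LaurentSeries G) (i : Fin n) : kap (rh n z i) = uu G (i : ℕ) * z :=
  (exists_rh n z).choose_spec i

theorem kap_mul_rh (r : Fin n → LaurentSeries G) (z : LaurentSeries G) :
    kap (r ᵥ* rh n z) = kap r * z := by
  rw [kap_vecMul, kap, Finset.sum_mul]
  simp only [kap_rh, mul_assoc]

theorem rh_eq {z : LaurentSeries G} {M : Matrix (Fin n) (Fin n) (LaurentSeries G)}
    (h : ∀ i : Fin n, kap (M i) = uu G (i : ℕ) * z) : rh n z = M :=
  Matrix.ext fun i => congrFun (kap_inj ((kap_rh z i).trans (h i).symm))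

theorem rh_ps (c : LaurentSeries G) : rh n (ps G n c) = diagonal fun _ => c :=
  rh_eq fun i => by
    rw [mul_comm, ← kap_single]
    congr 1
    ext1 j
    rw [diagonal_apply, Pi.single_apply]
    simp only [eq_comm]

/-- the regular representation -/
noncomputable def rho (G : Type) [Field G] (n : ℕ) [NeZero n] :
    LaurentSeries G →+* Matrix (Fin n) (Fin n) (LaurentSeries G) where
  toFun := rh n
  map_one' := by simpa using rh_ps (G := G) (n := n) 1
  map_mul' x y := rh_eq fun i => by rw [mul_apply_eq_vecMul, kap_mul_rh, kap_rh, mul_assoc]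
  map_zero' := by simpa using rh_ps (G := G) (n := n) 0
  map_add' x y := rh_eq fun i => by
    rw [mul_add, ← kap_rh, ← kap_rh, ← kap_add]; rfl

theorem rho_ps (c : LaurentSeries G) : rho G n (ps G n c) = c • 1 := by
  rw [smul_one_eq_diagonal]; exact rh_ps c

theorem kap_rho (r : Fin n → LaurentSeries G) (z : LaurentSeries G) :
    kap (r ᵥ* rho G n z) = kap r * z := kap_mul_rh r z

theorem rho_cm (f : G →+* G') (z : LaurentSeries G) :
    (cm f).mapMatrix (rho G n z) = rho G' n (cm f z) :=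
  (rh_eq fun i => by
    rw [← cm_uu f, ← map_mul, ← kap_rh, ← kap_cm]; rfl).symm

theorem rho_emb (p : G[X]) : rho G n (emb G p) ∈ (emb G).mapMatrix.range := by
  have k1 : ∀ (j : Fin n) (c : G[X]), (fun l => emb G (Pi.single (M := fun _ => G[X]) j c l)) =
      Pi.single j (emb G c) := fun j c => by
    ext1 l
    rw [Pi.single_apply, Pi.single_apply, apply_ite (emb G), map_zero]
  induction p using Polynomial.induction_on with
  | C a => exact ⟨diagonal fun _ => C a, by
      rw [RingHom.mapMatrix_apply, diagonal_map (map_zero _), emb_eq, ev_C]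
      exact (rh_ps (n := n) _).symm.trans (congrArg (rh n) (ps_C a))⟩
  | add p q hp hq => rw [map_add, map_add]; exact add_mem hp hq
  | monomial k a h =>
    rw [pow_succ, ← mul_assoc, map_mul, map_mul]
    refine mul_mem h ⟨Matrix.of fun i => if h : (i : ℕ) + 1 < n then Pi.single ⟨_, h⟩ 1 else
      Pi.single 0 X, (rh_eq fun i => ?_).symm⟩
    change kap (fun l => emb G ((if h : (i : ℕ) + 1 < n then Pi.single (M := fun _ => G[X])
      (⟨_, h⟩ : Fin n) 1 else Pi.single 0 X) l)) = _
    split_ifs with h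
    · rw [k1, kap_single, map_one, map_one, one_mul, emb_eq, ev_X, ← uu_add]
      simp
    · rw [k1, kap_single, emb_eq, ev_X, ps_uu, ← uu_add, ← uu_add]
      congr 1
      have := i.2
      simp
      omega

theorem det_le_kap (Z : Matrix (Fin n) (Fin n) (LaurentSeries G)) :
    vv Z.det ^ n ≤ ∏ i, vv (kap (Z i)) := by
  rw [← vv_ps, RingHom.map_det, ← det_transpose, Matrix.det_apply']
  refine Valuation.map_sum_le _ fun σ _ => ?_
  rw [map_mul, map_prod]
  have : vv (((Equiv.Perm.sign σ : ℤˣ) : ℤ) : LaurentSeries G) = 1 := by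
    rcases Int.units_eq_one_or (Equiv.Perm.sign σ) with h | h <;> simp [h]
  rw [this, one_mul]
  exact Finset.prod_le_prod' fun j _ => kap_ge (Z j) (σ j)

end Pool.Agent.MP_c07293_an.H78
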