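import Pool.Agent.MP_c07293_an.H82.Mahler

/-! The compactness criterion in every rank, and infinitely many orbits from one family. -/

set_option autoImplicit false

namespace Pool.Agent.MP_c07293_an.H78

open Polynomial WithZero Matrix H82

variable {F : Type} [Field F] {n : ℕ}

theorem into_CC (hn : 1 ≤ n) (c : ℕ) (g : GL (Fin n) (LaurentSeries F))
    (hmin : ∀ x : Fin n → F[X], x ≠ 0 →
      vv g.val.det ≤ (∏ i, vv ((g.val *ᵥ fun j => emb F (x j)) i)) * exp (c : ℤ)) :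
    ∃ h ∈ CC F n (n * (n + n * c)), (h : GL (Fin n) (LaurentSeries F) ⧸ Gam F n) = g := by
  have hg : g.val.det ≠ 0 := g.det_ne_zero
  have hg' : vv g.val.det ≠ 0 := by simpa using hg
  obtain ⟨γ, d, hγ, hb, hs⟩ := reduce g.val hg
  obtain ⟨D, hD⟩ : ∃ D : ℤ, vv g.val.det = exp D := ⟨_, (exp_log hg').symm⟩
  rw [hD, exp_le_exp] at hs
  have n0 : (0 : ℤ) < n := by exact_mod_cast hn
  have c0 : (0 : ℤ) ≤ c := Nat.cast_nonneg c
  have h1 : ∀ j, D ≤ n * d j + c := by
    intro j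
    have := hmin (fun i => γ i j) fun h0 =>
      hγ.ne_zero (det_eq_zero_of_column_eq_zero j fun i => congrFun h0 i)
    rw [← exp_le_exp, ← hD]
    refine this.trans ?_
    have e : (exp (n * d j) : ℤᵐ⁰) = ∏ _i : Fin n, exp (d j) := by
      rw [← exp_sum']; simp
    rw [exp_add, e]
    exact mul_le_mul' (Finset.prod_le_prod' fun i _ => hb i j) le_rfl
  have e1 := Int.mul_ediv_add_emod D n
  have e2 := Int.emod_nonneg D n0.ne'
  have e3 := Int.emod_lt_of_pos D n0
  generalize D / n = e at e1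
  have h0 : ∀ j, 0 ≤ d j - e + c := fun j =>
    le_of_mul_le_mul_left (by have := h1 j; nlinarith) n0
  have h0' : ∀ j, -e + d j ≤ n + n * c := fun j => by
    have := Finset.single_le_sum (f := fun j => d j - e + c) (fun j _ => h0 j) (Finset.mem_univ j)
    simp only [Finset.sum_add_distrib, Finset.sum_sub_distrib, Finset.sum_const, Finset.card_univ,
      Fintype.card_fin, nsmul_eq_mul] at this
    linarith
  set c' : (LaurentSeries F)ˣ := Units.mk0 (uu F (-e)) (uu_ne _) with hc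
  set h : GL (Fin n) (LaurentSeries F) := g * (GeneralLinearGroup.map (emb F)
    (GeneralLinearGroup.mk'' γ hγ) * GeneralLinearGroup.scalar (Fin n) c') with hh
  have hv : h.val = uu F (-e) • (g.val * γ.map (emb F)) := by
    rw [hh, ← mul_assoc, Units.val_mul, Units.val_mul, smul_eq_mul_diagonal]
    rfl
  have h2 : ∀ i j, vv (h.val i j) ≤ exp ((n : ℤ) + n * c) := by
    intro i j
    rw [hv, Matrix.smul_apply, smul_eq_mul, map_mul, vv_uu]
    refine (mul_le_mul' le_rfl (hb i j)).trans ?_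
    rw [← exp_add, exp_le_exp]
    exact h0' j
  have h3 : 1 ≤ vv h.val.det := by
    rw [hv, det_smul, det_mul, map_mul, map_mul, map_pow, vv_uu, ← RingHom.mapMatrix_apply,
      ← RingHom.map_det, vv_unit hγ, mul_one, hD, ← WithZero.exp_nsmul, ← exp_add,
      ← exp_zero, exp_le_exp]
    simp only [Fintype.card_fin, nsmul_eq_mul]
    linarith
  have p0 : (0 : ℤ) ≤ n + n * c := by positivity
  refine ⟨h, ⟨fun i j => (h2 i j).trans (exp_le_exp.mpr (by nlinarith)), fun i j => ?_⟩,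
    QuotientGroup.mk_mul_of_mem _
      (Subgroup.mul_mem _ (Subgroup.mem_sup_right ⟨_, rfl⟩) (scalar_mem c'))⟩
  rw [GeneralLinearGroup.coe_inv, inv_def, Matrix.smul_apply, smul_eq_mul, map_mul,
    Ring.inverse_eq_inv', map_inv₀, adjugate_apply]
  have h4 := det_le (h.val.updateRow j (Pi.single i 1)) (fun _ => (n : ℤ) + n * c) fun a b => by
    rw [updateRow_apply]
    split_ifs
    · rw [Pi.single_apply]
      split_ifs
      · rw [map_one, ← exp_zero, exp_le_exp]; exact p0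
      · simp
    · exact h2 a b
  calc _ ≤ 1 * exp (∑ _j : Fin n, ((n : ℤ) + n * c)) := mul_le_mul' (inv_le_one_of_one_le₀ h3) h4
    _ = _ := by simp [mul_add]

theorem emb_inj : Function.Injective (emb F) := ev_inj (vv_uu (F := F) 1) one_ne_zero

theorem one_le_emb {p : F[X]} (hp : p ≠ 0) : 1 ≤ vv (emb F p) := by
  obtain ⟨j, -, e1, -⟩ := (good_ev (vv_uu (F := F) 1) one_ne_zero).spec hp
  rw [Valuation.comap_apply] at e1
  rw [emb_eq, e1, ← exp_zero, exp_le_exp]
  omega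

theorem mat_bound (A : Matrix (Fin n) (Fin n) (LaurentSeries F)) :
    ∃ B : ℕ, ∀ i j, vv (A i j) ≤ exp (B : ℤ) := by
  choose e he using fun p : Fin n × Fin n => exists_bound (A p.1 p.2)
  obtain ⟨B, hB⟩ := (Set.finite_range e).bddAbove
  exact ⟨B.toNat, fun i j => (he (i, j)).trans
    (exp_le_exp.mpr ((hB ⟨(i, j), rfl⟩).trans (Int.self_le_toNat B)))⟩

theorem div_le {A Δ W : Matrix (Fin n) (Fin n) F[X]} {π : F[X]} {a μ w : ℤ}
    (ha : ∀ i j, vv (emb F (A i j)) ≤ exp a) (hπ : vv (emb F π) = exp μ) (hμ : a < μ)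
    (hw : ∀ i j, vv (emb F (W i j)) ≤ exp w)
    (h : (π • (1 : Matrix (Fin n) (Fin n) F[X]) + A) * Δ = W) (i j : Fin n) :
    vv (emb F (Δ i j)) ≤ exp (w - μ) := by
  have : Nonempty (Fin n × Fin n) := ⟨(i, j)⟩
  obtain ⟨⟨k, l⟩, hm⟩ := Finite.exists_max fun p : Fin n × Fin n => vv (emb F (Δ p.1 p.2))
  refine (hm (i, j)).trans ?_
  by_cases h1 : vv (emb F (Δ k l)) = 0
  · exact h1.le.trans zero_le
  obtain ⟨ν, hν⟩ : ∃ ν : ℤ, vv (emb F (Δ k l)) = exp ν := ⟨_, (exp_log h1).symm⟩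
  simp only [hν] at hm ⊢
  have h3 := vv_mul_le (A := A.map (emb F)) ha (B := Δ.map (emb F)) (fun k l => hm (k, l)) k l
  have h4 : emb F π * emb F (Δ k l) = emb F (W k l) - (A.map (emb F) * Δ.map (emb F)) k l := by
    rw [← Matrix.map_mul, ← h, add_mul, smul_mul_assoc, one_mul]
    simp
  have h5 := (Valuation.map_sub vv _ _).trans (max_le_max (hw k l) h3)
  rw [← h4, map_mul, hπ, hν, ← WithZero.exp_add, le_max_iff, exp_le_exp, exp_le_exp] at h5
  rw [exp_le_exp]
  omega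

theorem chain {A : Matrix (Fin n) (Fin n) F[X]} {a μ ε : ℤ}
    (ha : ∀ i j, vv (emb F (A i j)) ≤ exp a) (hμ : a < μ) (hε : 0 ≤ ε) (S : Finset F[X])
    (h1 : ∀ π ∈ S, vv (emb F π) = exp μ) (h2 : ∀ π ∈ S, ∀ π' ∈ S, vv (emb F (π - π')) ≤ exp ε)
    {W : Matrix (Fin n) (Fin n) F[X]} {w : ℤ} (h0 : W ≠ 0) (hw : ∀ i j, vv (emb F (W i j)) ≤ exp w)
    (h : ∀ π ∈ S, ∃ Δ, (π • (1 : Matrix (Fin n) (Fin n) F[X]) + A) * Δ = W) :
    S.card * μ ≤ w + S.card ^ 2 * ε := by
  classical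
  induction S using Finset.induction_on generalizing W w with
  | empty =>
    obtain ⟨i, hi⟩ := Function.ne_iff.1 h0
    obtain ⟨j, hj⟩ := Function.ne_iff.1 hi
    have := (one_le_emb hj).trans (hw i j)
    rw [← exp_zero, exp_le_exp] at this
    simpa using this
  | insert π₀ S hn ih =>
    obtain ⟨Δ₀, hΔ⟩ := h π₀ (Finset.mem_insert_self _ _)
    have m := fun π (hπ : π ∈ S) => Finset.mem_insert_of_mem (b := π₀) hπ
    have := ih (fun π hπ => h1 π (m π hπ)) (fun π hπ π' hπ' => h2 π (m π hπ) π' (m π' hπ'))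
      (W := (∏ π ∈ S, (π - π₀)) • Δ₀) (w := S.card * ε + (w - μ))
      (smul_ne_zero (Finset.prod_ne_zero_iff.2 fun π hπ => sub_ne_zero.2 fun e => hn (e ▸ hπ))
        fun e => h0 (by rw [← hΔ, e, mul_zero])) (fun i j => by
        rw [Matrix.smul_apply, smul_eq_mul, map_mul, map_mul, map_prod, map_prod, WithZero.exp_add,
          ← nsmul_eq_mul, WithZero.exp_nsmul]
        exact mul_le_mul' (Finset.prod_le_pow_card _ _ _ fun π hπ =>
          h2 π (m π hπ) _ (Finset.mem_insert_self _ _))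
          (div_le ha (h1 _ (Finset.mem_insert_self _ _)) hμ hw hΔ i j)) fun π hπ => by
        obtain ⟨Δ, e⟩ := h π (m π hπ)
        refine ⟨(∏ π ∈ S.erase π, (π - π₀)) • (Δ₀ - Δ), ?_⟩
        rw [← Finset.prod_erase_mul _ _ hπ, mul_smul, Matrix.mul_smul, mul_sub, e, ← hΔ, ← sub_mul,
          add_sub_add_right_eq_sub, ← sub_smul, smul_mul_assoc, one_mul]
    rw [Finset.card_insert_of_notMem hn]
    push_cast
    nlinarith [mul_nonneg (Nat.cast_nonneg (α := ℤ) S.card) hε]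

end Pool.Agent.MP_c07293_an.H78
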