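import Pool.Agent.MP_c07293_an.H78.Div

/-! The data over the algebraic closure of a finite field. -/

set_option autoImplicit false

namespace Pool.Agent.MP_c07293_an.H78

open Polynomial WithZero Matrix H82

variable {F E : Type} [Field F] [Field E] {n : ℕ} [NeZero n]

theorem surj_poly [IsAlgClosed E] (P : E[X]) (h : P.coeff 1 ≠ 0) (c : E) : ∃ x, P.eval x = c := by
  obtain ⟨x, hx⟩ := IsAlgClosed.exists_root (P - C c) fun h0 => h (by
    have := coeff_eq_zero_of_degree_lt (p := P - C c) (n := 1) (by rw [h0]; exact zero_lt_one)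
    simpa using this)
  exact ⟨x, by simpa [sub_eq_zero] using hx⟩

theorem iter (f : E →+* E) {a y : LaurentSeries E} (hy : y = a * cm f y) (j : ℕ) :
    y = (∏ l ∈ Finset.range j, cm (f ^ l) a) * cm (f ^ j) y := by
  induction j with
  | zero => rw [Finset.prod_range_zero, one_mul]; rfl
  | succ j ih =>
    rw [Finset.prod_range_succ, mul_assoc, pow_succ,
      show cm (f ^ j * f) y = cm (f ^ j) (cm f y) from rfl, ← map_mul, ← hy, ← ih]

theorem prod_roots {L : Type} [Field L] {p e m : ℕ} [Fact p.Prime] [CharP L p] {ζ : L}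
    (hζ : IsPrimitiveRoot ζ m) (hm : 0 < m) (w : L) :
    ∏ j ∈ Finset.range (p ^ e * m), (1 - ζ ^ j * w) = 1 - w ^ (p ^ e * m) := by
  have h1 : ∏ j ∈ Finset.range m, (1 - ζ ^ j * w) = 1 - w ^ m := by
    have := congrArg (eval 1) (X_pow_sub_C_eq_prod hζ hm (rfl : w ^ m = _))
    simpa [eval_prod] using this.symm
  have h2 : ∀ k, ∏ j ∈ Finset.range (m * k), (1 - ζ ^ j * w) = (1 - w ^ m) ^ k := fun k => by
    induction k with
    | zero => simp
    | succ k ih =>
      rw [mul_add, mul_one, Finset.prod_range_add, ih, pow_succ, ← h1]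
      simp only [pow_add, pow_mul, hζ.pow_eq_one, one_pow, one_mul]
  rw [mul_comm, h2, sub_pow_char_pow, one_pow, pow_mul]

theorem exists_ring [Finite F] (n : ℕ) [NeZero n] :
    ∃ D : Subring (Matrix (Fin n) (Fin n) (LaurentSeries F)), (∀ p, rho F n (emb F p) ∈ D) ∧
      (∀ (M : Matrix (Fin n) (Fin n) (LaurentSeries F)) (R : ℕ),
        ∃ Z ∈ D, ∀ i j, vv ((Z - M) i j) ≤ exp (-(R : ℤ))) ∧
      ∀ (τ : Type) [Fintype τ] (Z : τ → Matrix (Fin n) (Fin n) (LaurentSeries F)),
        (∀ l, Z l ∈ D) → ∃ c : ℤ, ∀ p : τ → F[X], ∑ l, Z l * rho F n (emb F (p l)) ≠ 0 →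
          exp c ≤ vv (∑ l, Z l * rho F n (emb F (p l))).det := by
  classical
  let _ := Fintype.ofFinite F
  obtain ⟨p, hp⟩ := CharP.exists F
  have := (CharP.char_is_prime_or_zero F p).resolve_right (CharP.char_ne_zero_of_finite F p)
  have := Fact.mk this
  obtain ⟨e, m, hm, hn⟩ := Nat.exists_eq_pow_mul_and_not_dvd (NeZero.ne n) p
    (Fact.out : p.Prime).ne_one
  let E := AlgebraicClosure F
  have : NeZero (m : E) := ⟨fun h => hm ((CharP.cast_eq_zero_iff E p m).1 h)⟩
  have m0 : 0 < m := Nat.pos_of_ne_zero fun h => hm (h ▸ dvd_zero p)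
  have q1 : 1 < Fintype.card F := Fintype.one_lt_card
  obtain ⟨φ, hφ, hι⟩ : ∃ φ : E →+* E, (∀ x, φ x = x ^ Fintype.card F) ∧
      ∀ x, φ (algebraMap F E x) = algebraMap F E x :=
    ⟨FiniteField.frobeniusAlgHom F E, fun _ => rfl, (FiniteField.frobeniusAlgHom F E).commutes⟩
  have hφ' : ∀ i x, (φ ^ i) x = x ^ Fintype.card F ^ i := fun i x => by
    induction i with
    | zero => simp
    | succ i ih => rw [pow_succ', RingHom.coe_mul, Function.comp_apply, ih, hφ, ← pow_mul, pow_succ]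
  have hper : ∀ x : E, ∃ N, 0 < N ∧ (φ ^ N) x = x := fun x => by
    by_cases x0 : x = 0
    · exact ⟨1, one_pos, by rw [x0, map_zero]⟩
    have := IntermediateField.adjoin.finiteDimensional (Algebra.IsIntegral.isIntegral (R := F) x)
    have := Module.finite_of_finite F (M := IntermediateField.adjoin F {x})
    let _ := Fintype.ofFinite (IntermediateField.adjoin F {x})
    refine ⟨_, Module.finrank_pos (R := F) (M := IntermediateField.adjoin F {x}), ?_⟩
    rw [hφ', ← Module.card_eq_pow_finrank]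
    exact congrArg Subtype.val (FiniteField.pow_card (IntermediateField.AdjoinSimple.gen F x))
  obtain ⟨ζ, hζ⟩ := HasEnoughRootsOfUnity.exists_primitiveRoot E m
  obtain ⟨d, d0, hd⟩ := hper ζ
  have d1 : 1 < Fintype.card F ^ d := Nat.one_lt_pow d0.ne' q1
  obtain ⟨θ, hθ⟩ := IsAlgClosed.exists_pow_nat_eq ζ (n := Fintype.card F ^ d - 1) (by omega)
  have θ0 : θ ≠ 0 := fun h => hζ.ne_zero m0.ne' (by rw [← hθ, h, zero_pow (by omega)])
  have θ1 : ∀ j, ((φ ^ d) ^ j) θ = ζ ^ j * θ := fun j => by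
    induction j with
    | zero => simp
    | succ j ih =>
      rw [pow_succ', RingHom.coe_mul, Function.comp_apply, ih, map_mul, map_pow, hd, hφ', pow_succ,
        mul_assoc, ← hθ, ← pow_succ, Nat.sub_add_cancel d1.le]
  choose rt hrt using surj_poly (X ^ Fintype.card F - X : E[X])
    (by simp [coeff_X_pow, q1.ne])
  obtain ⟨s, s0, hs⟩ : ∃ s : ℕ → E, s 0 = 1 ∧ ∀ k, s (k + 1) = rt (θ * φ (s k)) :=
    ⟨fun k => Nat.rec 1 (fun _ x => rt (θ * φ x)) k, rfl, fun _ => rfl⟩
  obtain ⟨a, ha⟩ : ∃ a : LaurentSeries E, a = 1 - HahnSeries.C θ * uu E (-1) := ⟨_, rfl⟩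
  have u1 : uu E 1 * uu E (-1) = 1 := by rw [← uu_add]; exact uu_zero
  have a1 : uu E 1 * a = emb E (X - C θ) := by
    rw [map_sub, emb_eq, ev_X, ev_C, ha, mul_sub, mul_left_comm, u1, mul_one, mul_one]
  have a0 : a ≠ 0 := fun h => X_sub_C_ne_zero θ (emb_inj (by rw [← a1, h, mul_zero, map_zero]))
  have y0 : ((PowerSeries.mk s : PowerSeries E) : LaurentSeries E) ≠ 0 := by
    rw [map_ne_zero_iff _ HahnSeries.ofPowerSeries_injective]
    intro h
    simpa [s0] using congrArg (PowerSeries.coeff 0) h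
  have hy : ((PowerSeries.mk s : PowerSeries E) : LaurentSeries E) =
      a * cm φ ((PowerSeries.mk s : PowerSeries E) : LaurentSeries E) := by
    have e1 : cm φ ((PowerSeries.mk s : PowerSeries E) : LaurentSeries E) =
        ((PowerSeries.mk fun k => φ (s k) : PowerSeries E) : LaurentSeries E) := by
      ext k
      simp only [cm_coeff, PowerSeries.coeff_coe, apply_ite φ, map_zero, PowerSeries.coeff_mk]
    have e2 : a = ((1 - PowerSeries.C θ * PowerSeries.X : PowerSeries E) : LaurentSeries E) := by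
      rw [ha, map_sub, map_one, map_mul, H82.coe_C]
      simp [uu]
    rw [e1, e2, ← map_mul]
    congr 1
    ext k
    rw [sub_mul, one_mul, mul_assoc, map_sub, PowerSeries.coeff_C_mul]
    cases k with
    | zero => simp [s0]
    | succ k =>
      have := hrt (θ * φ (s k))
      simp only [eval_sub, eval_pow, eval_X, ← hs, ← hφ] at this
      simp only [PowerSeries.coeff_succ_X_mul, PowerSeries.coeff_mk, ← this, sub_sub_cancel]
  generalize ((PowerSeries.mk s : PowerSeries E) : LaurentSeries E) = y at y0 hy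
  have g1 := geom_sum₂_mul (X : E[X]) (C θ) n
  have g2 := good_ev (vv_uu (F := E) (-1)) (by norm_num)
  refine divring (algebraMap F E) φ hι (fun x hx => ?_) hper (fun N hN => ?_) y0 hy
    (rho_Rat (g := X ^ (n - 1) * (X - C θ)) X_ne_zero ?_) (X_sub_C_ne_zero (θ ^ n))
    (g := X * ∑ i ∈ Finset.range n, X ^ i * C θ ^ (n - 1 - i)) ?_ ?_
    ⟨d * n, Nat.mul_pos d0 (NeZero.pos n), fun k => ?_⟩
  · have h1 : (X ^ Fintype.card F - X : F[X]).Splits := (FiniteField.isSplittingField_sub F F).splits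
      |> fun h => by simpa using h
    exact h1.mem_range_of_isRoot (FiniteField.X_pow_card_sub_X_ne_zero F q1)
      (by simp [← hφ, hx])
  · simp only [hφ']
    simpa [eval_finsetSum] using surj_poly (∑ i ∈ Finset.range N, X ^ Fintype.card F ^ i : E[X]) (by
      rw [finsetSum_coeff, Finset.sum_eq_single 0 (fun i _ hi => by
        rw [coeff_X_pow, if_neg (Nat.one_lt_pow hi q1).ne]) (by simp [hN])]
      simp) 1
  · rw [expand_X, map_mul, ← a1, ← mul_assoc, ← ev_X (uu E 1), ← emb_eq, ← map_mul, ← pow_succ,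
      Nat.sub_add_cancel NeZero.one_le]
  · rw [mul_inv_eq_iff_eq_mul₀ a0, map_mul, mul_right_comm, emb_eq, ev_X, a1, ← emb_eq, ← map_mul,
      mul_comm, g1, map_sub (expand E n), expand_X, expand_C, map_pow C]
  · have b1 := g2.binom one_ne_zero (neg_ne_zero.2 θ0)
    have b2 := g2.binom (NeZero.ne n) (neg_ne_zero.2 (pow_ne_zero n θ0))
    rw [pow_one, map_neg, ← sub_eq_add_neg, max_eq_right (by simp), exp_zero] at b1
    rw [map_neg, ← sub_eq_add_neg, map_pow C, ← g1, map_mul, b1, mul_one, max_eq_right (by simp),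
      exp_zero, Valuation.comap_apply] at b2
    rw [map_mul, map_mul, b2, mul_one, ev_X, vv_uu]
  · have : CharP (LaurentSeries E) p :=
      charP_of_injective_ringHom (HahnSeries.C_injective (Γ := ℤ) (R := E)) p
    have h1 := iter (φ ^ d) (iter φ hy d) n
    have h2 : ∀ j i, cm ((φ ^ d) ^ j) (cm (φ ^ i) a) = cm (φ ^ i)
        (1 - HahnSeries.C ζ ^ j * (HahnSeries.C θ * uu E (-1))) := fun j i => by
      rw [← mul_assoc, ← map_pow, ← map_mul, ← θ1, ← cm_C, ← cm_uu ((φ ^ d) ^ j), ← map_mul,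
        ← map_one (cm ((φ ^ d) ^ j)), ← map_sub, ← ha]
      exact congrArg (cm · a) (((Commute.refl φ).pow_pow d i).pow_left j).eq
    have h3 : ∏ j ∈ Finset.range n, (1 - HahnSeries.C ζ ^ j * (HahnSeries.C θ * uu E (-1))) =
        ps E n (1 - HahnSeries.C θ ^ n * uu E (-1)) := by
      rw [map_sub, map_one, map_mul, map_pow, ps_C, ps_uu, show uu E (n * -1) = uu E (-1) ^ n by
        rw [uu, uu, HahnSeries.single_pow]; simp, ← mul_pow, hn]
      exact prod_roots (hζ.map_of_injective HahnSeries.C_injective) m0 _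
    simp only [map_prod, h2] at h1
    rw [Finset.prod_comm] at h1
    simp only [← map_prod, h3, cm_ps] at h1
    rw [← pow_mul] at h1
    generalize ∏ i ∈ Finset.range d, cm (φ ^ i) (1 - HahnSeries.C θ ^ n * uu E (-1)) = b at h1
    have h4 : cm (φ ^ (d * n)) y = ps E n b⁻¹ * y := by
      rw [map_inv₀, eq_inv_mul_iff_mul_eq₀ (left_ne_zero_of_mul (h1 ▸ y0)), ← h1]
    induction k with
    | zero => exact ⟨1, by rw [map_one, one_mul]; rfl⟩
    | succ k ih =>
      obtain ⟨c, hc⟩ := ih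
      refine ⟨cm (φ ^ (d * n * k)) b⁻¹ * c, ?_⟩
      rw [mul_add, mul_one, pow_add, map_mul, mul_assoc (ps E n _), ← hc, ← cm_ps, ← map_mul, ← h4]
      rfl

end Pool.Agent.MP_c07293_an.H78
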